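import Pool.Agent.Q20.Dix.Single

/-! Filtration, symbol functionals and Poisson bracket of one factor. -/

open MvPolynomial Module

namespace Q20.Dix

universe u v w

/-- filtration of a module with basis `b` by a weight function on the index set -/
def Fil {k : Type u} [Field k] {Γ : Type v} {P : Type w} [AddCommGroup P] [Module k P]
    (b : Basis Γ k P) (wf : Γ → ℕ) (e : ℕ) : Submodule k P where
  carrier := {x | ∀ γ, b.repr x γ ≠ 0 → wf γ ≤ e}
  zero_mem' := by intro γ h; simp at h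
  add_mem' := by
    intro x y hx hy γ h
    rw [map_add, Finsupp.add_apply] at h
    by_cases h1 : b.repr x γ = 0
    · rw [h1, zero_add] at h
      exact hy γ h
    · exact hx γ h1
  smul_mem' := by
    intro c x hx γ h
    rw [map_smul, Finsupp.smul_apply, smul_eq_mul] at h
    exact hx γ (right_ne_zero_of_mul h)

section fil

variable {k : Type u} [Field k] {Γ : Type v} {P : Type w} [AddCommGroup P] [Module k P]
    (b : Basis Γ k P) (wf : Γ → ℕ)

theorem mem_Fil {e : ℕ} {x : P} : x ∈ Fil b wf e ↔ ∀ γ, b.repr x γ ≠ 0 → wf γ ≤ e := Iff.rfl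

theorem Fil_mono {e e' : ℕ} (h : e ≤ e') : Fil b wf e ≤ Fil b wf e' :=
  fun _ hx γ hγ => (hx γ hγ).trans h

theorem bas_mem_Fil (γ : Γ) {e : ℕ} (h : wf γ ≤ e) : b γ ∈ Fil b wf e := by
  classical
  intro γ' h'
  rw [Basis.repr_self, Finsupp.single_apply] at h'
  by_cases h1 : γ = γ'
  · rw [← h1]; exact h
  · rw [if_neg h1] at h'; exact absurd rfl h'

theorem Fil_eq_span (e : ℕ) : Fil b wf e = Submodule.span k (b '' {γ | wf γ ≤ e}) := by
  apply le_antisymm
  · intro x hx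
    rw [Basis.mem_span_image]
    intro γ hγ
    exact hx γ (by simpa using hγ)
  · rw [Submodule.span_le]
    rintro _ ⟨γ, hγ, rfl⟩
    exact bas_mem_Fil b wf γ hγ

/-- induction principle for the filtration -/
theorem Fil_induction {e : ℕ} {p : P → Prop} (h0 : p 0) (ha : ∀ x y, p x → p y → p (x + y))
    (hs : ∀ (c : k) x, p x → p (c • x)) (hb : ∀ γ, wf γ ≤ e → p (b γ)) :
    ∀ x ∈ Fil b wf e, p x := by
  intro x hx
  rw [Fil_eq_span] at hx
  refine Submodule.span_induction (p := fun x _ => p x) ?_ h0 (fun x y _ _ => ha x y)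
    (fun c x _ => hs c x) hx
  rintro _ ⟨γ, hγ, rfl⟩
  exact hb γ hγ

theorem exists_mem_Fil (x : P) : ∃ e, x ∈ Fil b wf e := by
  classical
  refine ⟨(b.repr x).support.sup wf, fun γ hγ => ?_⟩
  exact Finset.le_sup (f := wf) (Finsupp.mem_support_iff.mpr hγ)

end fil

/-- `Q` has degree at most `e` with coefficient `c` there -/
def Top {K : Type v} [Field K] (Q : Polynomial K) (e : ℕ) (c : K) : Prop :=
  Q.natDegree ≤ e ∧ Q.coeff e = c

theorem Top.mul {K : Type v} [Field K] {Q Q' : Polynomial K} {e e' : ℕ} {c c' : K}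
    (h : Top Q e c) (h' : Top Q' e' c') : Top (Q * Q') (e + e') (c * c') :=
  ⟨Polynomial.natDegree_mul_le_of_le h.1 h'.1, by
    rw [Polynomial.coeff_mul_add_eq_of_natDegree_le h.1 h'.1, h.2, h'.2]⟩

theorem Top.prod {K : Type v} [Field K] {ι : Type*} (s : Finset ι) {Q : ι → Polynomial K}
    {e : ι → ℕ} {c : ι → K} (h : ∀ i ∈ s, Top (Q i) (e i) (c i)) :
    Top (∏ i ∈ s, Q i) (∑ i ∈ s, e i) (∏ i ∈ s, c i) := by
  classical
  induction s using Finset.induction_on with
  | empty => exact ⟨by simp, by simp⟩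
  | insert a s ha ih =>
    rw [Finset.prod_insert ha, Finset.prod_insert ha, Finset.sum_insert ha]
    exact (h a (Finset.mem_insert_self a s)).mul
      (ih fun i hi => h i (Finset.mem_insert_of_mem hi))

/-- value of a monomial at a point -/
noncomputable def mon {K : Type v} [Field K] (p : Fin 3 → K) (e : Fin 3 →₀ ℕ) : K :=
  MvPolynomial.eval p (monomial e (1 : K))

theorem mon_add {K : Type v} [Field K] (p : Fin 3 → K) (e e' : Fin 3 →₀ ℕ) :
    mon p (e + e') = mon p e * mon p e' := by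
  rw [mon, mon, mon, ← map_mul, monomial_mul, one_mul]

variable {k : Type u} [Field k]

theorem aeval_monomial_one {K : Type v} [Field K] [Algebra k K] (p : Fin 3 → K)
    (e : Fin 3 →₀ ℕ) : aeval p (monomial e (1 : k)) = mon p e := by
  rw [mon, aeval_monomial, eval_monomial, map_one]

theorem aeval_eq_sum_mon {K : Type v} [Field K] [Algebra k K] (p : Fin 3 → K)
    (f : MvPolynomial (Fin 3) k) : aeval p f = ∑ c ∈ f.support, coeff c f • mon p c := by
  conv_lhs => rw [f.as_sum, map_sum]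
  refine Finset.sum_congr rfl fun c _ => ?_
  rw [← aeval_monomial_one (k := k) p c, ← map_smul, smul_monomial, smul_eq_mul, mul_one]

namespace Dat

variable (d : Dat k)

theorem mk_mem_Fil {f : MvPolynomial (Fin 3) k} {e : ℕ} (hf : f.totalDegree ≤ e) :
    mkA d.Ω d.ξ f ∈ Fil d.bas wt e := by
  obtain ⟨r, h1, h2, h3, -⟩ := d.nf' f e hf
  rw [h2]
  intro γ hγ
  rw [d.repr_std h1] at hγ
  exact (le_totalDegree (MvPolynomial.mem_support_iff.mpr hγ)).trans h3

/-- the symbol functional of a point -/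
noncomputable def sym {K : Type v} [Field K] [Algebra k K] (p : Fin 3 → K) :
    A d.Ω d.ξ →ₗ[k] Polynomial K :=
  d.bas.constr k (fun e => Polynomial.monomial (wt e) (mon p e.1))

theorem sym_bas {K : Type v} [Field K] [Algebra k K] (p : Fin 3 → K) (e : Std d.Ω) :
    d.sym p (d.bas e) = Polynomial.monomial (wt e) (mon p e.1) := by
  rw [sym, Basis.constr_basis]

theorem sym_std {K : Type v} [Field K] [Algebra k K] (p : Fin 3 → K)
    {r : MvPolynomial (Fin 3) k} (hr : StdP (lex d.Ω) r) :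
    d.sym p (mkA d.Ω d.ξ r) =
      ∑ c ∈ r.support, coeff c r • Polynomial.monomial c.degree (mon p c) := by
  rw [sum_std, map_sum]
  refine Finset.sum_congr rfl fun c hc => ?_
  let e0 : Std d.Ω := ⟨c, hr c hc⟩
  have h1 : mkA d.Ω d.ξ (monomial c (1 : k)) = d.bas e0 := (d.bas_apply e0).symm
  rw [h1, map_smul, sym_bas]
  rfl

theorem sym_mk {K : Type v} [Field K] [Algebra k K] (p : Fin 3 → K) (hp : aeval p d.Ω = 0)
    {f : MvPolynomial (Fin 3) k} {e : ℕ} (hf : f.totalDegree ≤ e) :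
    Top (d.sym p (mkA d.Ω d.ξ f)) e (aeval p (homogeneousComponent e f)) := by
  classical
  obtain ⟨r, h1, h2, h3, q, h4⟩ := d.nf' f e hf
  rw [h2, d.sym_std p h1, h4, map_add, map_mul, hp, mul_zero, zero_add]
  constructor
  · refine Polynomial.natDegree_sum_le_of_forall_le _ _ fun c hc => ?_
    refine (Polynomial.natDegree_smul_le _ _).trans ((Polynomial.natDegree_monomial_le _).trans ?_)
    exact (le_totalDegree hc).trans h3
  · rw [Polynomial.finsetSum_coeff, homogeneousComponent_apply, map_sum]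
    rw [Finset.sum_filter]
    refine Finset.sum_congr rfl fun c _ => ?_
    rw [Polynomial.coeff_smul, Polynomial.coeff_monomial]
    by_cases h : c.degree = e
    · rw [if_pos h, if_pos h, ← aeval_monomial_one (k := k), ← map_smul, smul_monomial,
        smul_eq_mul, mul_one]
    · rw [if_neg h, if_neg h, smul_zero]

end Dat

/-- the Jacobian determinant of three polynomials: the rows are the gradients -/
noncomputable def jac (f g h : MvPolynomial (Fin 3) k) : MvPolynomial (Fin 3) k :=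
  Matrix.det (Matrix.of fun a j : Fin 3 => pderiv j (![f, g, h] a))

theorem jac_eq (f g h : MvPolynomial (Fin 3) k) : jac f g h =
    pderiv 0 f * pderiv 1 g * pderiv 2 h - pderiv 0 f * pderiv 2 g * pderiv 1 h
      - pderiv 1 f * pderiv 0 g * pderiv 2 h + pderiv 1 f * pderiv 2 g * pderiv 0 h
      + pderiv 2 f * pderiv 0 g * pderiv 1 h - pderiv 2 f * pderiv 1 g * pderiv 0 h := by
  rw [jac, Matrix.det_fin_three]
  simp [Matrix.of_apply]

theorem jac_congr {Ω : MvPolynomial (Fin 3) k} {ξ : k} {f f' g g' : MvPolynomial (Fin 3) k}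
    (hf : mkA Ω ξ f = mkA Ω ξ f') (hg : mkA Ω ξ g = mkA Ω ξ g') :
    mkA Ω ξ (jac f g Ω) = mkA Ω ξ (jac f' g' Ω) := by
  rw [mkA_eq_iff] at *
  obtain ⟨a, ha⟩ := hf
  obtain ⟨b, hb⟩ := hg
  rw [sub_eq_iff_eq_add] at ha hb
  have h1 : jac f g Ω - jac f' g' Ω =
      (Ω - C ξ) * (jac a g Ω + jac f' b Ω) := by
    rw [ha, hb]
    simp only [jac_eq, map_add, map_sub, Derivation.leibniz, pderiv_C, smul_eq_mul, sub_zero]
    ring
  rw [h1]
  exact dvd_mul_right _ _

/-- a polynomial representing a class -/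
noncomputable def rep (Ω : MvPolynomial (Fin 3) k) (ξ : k) (u : A Ω ξ) : MvPolynomial (Fin 3) k :=
  (mkA_surj Ω ξ u).choose

theorem mk_rep (Ω : MvPolynomial (Fin 3) k) (ξ : k) (u : A Ω ξ) :
    mkA Ω ξ (rep Ω ξ u) = u := (mkA_surj Ω ξ u).choose_spec

/-- the bracket on `k[x,y,z]/(Ω - ξ)`, as a function: take representing polynomials, their
Jacobian determinant with `Ω`, and its class -/
noncomputable def brF (Ω : MvPolynomial (Fin 3) k) (ξ : k) (u v : A Ω ξ) : A Ω ξ :=
  mkA Ω ξ (jac (rep Ω ξ u) (rep Ω ξ v) Ω)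

theorem brF_mk (Ω : MvPolynomial (Fin 3) k) (ξ : k) (f g : MvPolynomial (Fin 3) k) :
    brF Ω ξ (mkA Ω ξ f) (mkA Ω ξ g) = mkA Ω ξ (jac f g Ω) :=
  jac_congr (mk_rep Ω ξ _) (mk_rep Ω ξ _)

theorem jac_add_left (f f' g h : MvPolynomial (Fin 3) k) :
    jac (f + f') g h = jac f g h + jac f' g h := by
  simp only [jac_eq, map_add]; ring

theorem jac_C_mul_left (c : k) (f g h : MvPolynomial (Fin 3) k) :
    jac (C c * f) g h = C c * jac f g h := by
  simp only [jac_eq, Derivation.leibniz, pderiv_C, smul_eq_mul, mul_zero, add_zero]; ring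

theorem brF_add_left (Ω : MvPolynomial (Fin 3) k) (ξ : k) (u u' v : A Ω ξ) :
    brF Ω ξ (u + u') v = brF Ω ξ u v + brF Ω ξ u' v := by
  obtain ⟨f, rfl⟩ := mkA_surj Ω ξ u
  obtain ⟨f', rfl⟩ := mkA_surj Ω ξ u'
  obtain ⟨g, rfl⟩ := mkA_surj Ω ξ v
  have e1 : mkA Ω ξ f + mkA Ω ξ f' = mkA Ω ξ (f + f') := (map_add (mkA Ω ξ) f f').symm
  rw [e1, brF_mk, brF_mk, brF_mk, jac_add_left, map_add]

theorem brF_smul_left (Ω : MvPolynomial (Fin 3) k) (ξ c : k) (u v : A Ω ξ) :
    brF Ω ξ (c • u) v = c • brF Ω ξ u v := by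
  obtain ⟨f, rfl⟩ := mkA_surj Ω ξ u
  obtain ⟨g, rfl⟩ := mkA_surj Ω ξ v
  have e1 : c • mkA Ω ξ f = mkA Ω ξ (C c * f) := by
    rw [← smul_eq_C_mul]
    exact (map_smul (mkA Ω ξ) c f).symm
  have e2 : c • mkA Ω ξ (jac f g Ω) = mkA Ω ξ (C c * jac f g Ω) := by
    rw [← smul_eq_C_mul]
    exact (map_smul (mkA Ω ξ) c _).symm
  rw [e1, brF_mk, brF_mk, e2, jac_C_mul_left]

theorem jac_anti (f g h : MvPolynomial (Fin 3) k) : jac f g h = - jac g f h := by
  rw [jac_eq, jac_eq]; ring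

theorem brF_anti (Ω : MvPolynomial (Fin 3) k) (ξ : k) (u v : A Ω ξ) :
    brF Ω ξ u v = - brF Ω ξ v u := by
  obtain ⟨f, rfl⟩ := mkA_surj Ω ξ u
  obtain ⟨g, rfl⟩ := mkA_surj Ω ξ v
  rw [brF_mk, brF_mk, jac_anti, map_neg]

/-- the Poisson bracket on `k[x,y,z]/(Ω - ξ)`: the bracket of the classes of `f` and `g` is the
class of the determinant with rows `∇f`, `∇g`, `∇Ω` -/
noncomputable def br (Ω : MvPolynomial (Fin 3) k) (ξ : k) : A Ω ξ →ₗ[k] A Ω ξ →ₗ[k] A Ω ξ :=
  LinearMap.mk₂ k (brF Ω ξ)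
    (brF_add_left Ω ξ)
    (brF_smul_left Ω ξ)
    (fun a b b' => by
      rw [brF_anti, brF_add_left, brF_anti Ω ξ b, brF_anti Ω ξ b']; abel)
    (fun c a b => by
      rw [brF_anti, brF_smul_left, brF_anti Ω ξ b, smul_neg, neg_neg])

theorem br_mk (Ω : MvPolynomial (Fin 3) k) (ξ : k) (f g : MvPolynomial (Fin 3) k) :
    br Ω ξ (mkA Ω ξ f) (mkA Ω ξ g) = mkA Ω ξ (jac f g Ω) := brF_mk Ω ξ f g

theorem totalDegree_pderiv_le (j : Fin 3) (f : MvPolynomial (Fin 3) k) {a : ℕ}
    (hf : f.IsHomogeneous a) : (pderiv j f).totalDegree ≤ a :=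
  (hf.pderiv.totalDegree_le).trans (Nat.sub_le a 1)

theorem jac_isHomogeneous {f g h : MvPolynomial (Fin 3) k} {a b c : ℕ} (hf : f.IsHomogeneous a)
    (hg : g.IsHomogeneous b) (hh : h.IsHomogeneous c) :
    (jac f g h).IsHomogeneous ((a - 1) + (b - 1) + (c - 1)) := by
  rw [jac_eq]
  have key : ∀ i j l : Fin 3, (pderiv i f * pderiv j g * pderiv l h).IsHomogeneous
      ((a - 1) + (b - 1) + (c - 1)) := fun i j l =>
    (hf.pderiv.mul hg.pderiv).mul hh.pderiv
  exact (((((key 0 1 2).sub (key 0 2 1)).sub (key 1 0 2)).add (key 1 2 0)).add (key 2 0 1)).sub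
    (key 2 1 0)

theorem Dat.bas_mul_mem (d : Dat k) (e e' : Std d.Ω) :
    d.bas e * d.bas e' ∈ Fil d.bas wt (wt e + wt e') := by
  rw [d.bas_apply, d.bas_apply, ← map_mul, monomial_mul, one_mul]
  refine d.mk_mem_Fil ?_
  refine (isHomogeneous_monomial (1 : k) (n := wt e + wt e') ?_).totalDegree_le
  rw [map_add]; rfl

theorem Dat.sym_mul (d : Dat k) {K : Type v} [Field K] [Algebra k K] (p : Fin 3 → K)
    (hp : aeval p d.Ω = 0) (e e' : Std d.Ω) :
    Top (d.sym p (d.bas e * d.bas e')) (wt e + wt e') (mon p e.1 * mon p e'.1) := by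
  rw [d.bas_apply, d.bas_apply, ← map_mul, monomial_mul, one_mul]
  have hh : (monomial (e.1 + e'.1) (1 : k)).IsHomogeneous (wt e + wt e') :=
    isHomogeneous_monomial (1 : k) (by rw [map_add]; rfl)
  have h1 := d.sym_mk p hp hh.totalDegree_le
  rwa [homogeneousComponent_of_mem hh, if_pos rfl, aeval_monomial_one, mon_add] at h1

theorem Dat.br_mem (d : Dat k) (e e' : Std d.Ω) :
    br d.Ω d.ξ (d.bas e) (d.bas e') ∈ Fil d.bas wt (wt e + wt e' + d.n) := by
  rw [d.bas_apply, d.bas_apply, br_mk]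
  refine d.mk_mem_Fil ?_
  have h1 : (monomial e.1 (1 : k)).IsHomogeneous (wt e) := isHomogeneous_monomial (1 : k) rfl
  have h2 : (monomial e'.1 (1 : k)).IsHomogeneous (wt e') := isHomogeneous_monomial (1 : k) rfl
  exact (jac_isHomogeneous h1 h2 d.hom).totalDegree_le.trans (by omega)

end Q20.Dix
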