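import Pool.Agent.Q20.Dix.Pot

/-! Finiteness of the set of solutions of the bracket equations in a bounded part. -/

open MvPolynomial Module TensorProduct

namespace Q20.Dix

universe u v

section alg

variable {k : Type u} [Field k] {N : Type} [Fintype N] [DecidableEq N]

/-- a set of points satisfying, for every coordinate, an equation whose pure power dominates, is
finite -/
theorem finite_of_power (Z : Set (N → k)) (E : ℕ) (Q : N → MvPolynomial N k)
    (hQ : ∀ m, (Q m).totalDegree < E) (hZ : ∀ z ∈ Z, ∀ m, z m ^ E = eval z (Q m)) : Z.Finite := by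
  classical
  let I : Ideal (MvPolynomial N k) :=
    { carrier := {f | ∀ z ∈ Z, eval z f = 0}
      zero_mem' := fun z _ => map_zero _
      add_mem' := fun {a b} ha hb z hz => by rw [map_add, ha z hz, hb z hz, add_zero]
      smul_mem' := fun c a ha z hz => by rw [smul_eq_mul, map_mul, ha z hz, mul_zero] }
  have hI : ∀ f, f ∈ I ↔ ∀ z ∈ Z, eval z f = 0 := fun f => Iff.rfl
  let c0 := Fintype.card N * E
  let W : Submodule k (MvPolynomial N k ⧸ I) := Submodule.span k
    ((fun e : N →₀ ℕ => Ideal.Quotient.mkₐ k I (monomial e (1 : k))) '' {e | e.degree ≤ c0})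
  have hfinset : {e : N →₀ ℕ | e.degree ≤ c0}.Finite := by
    refine (Set.finite_Iic (Finsupp.equivFunOnFinite.symm fun _ : N => c0)).subset ?_
    intro e he
    rw [Set.mem_Iic]
    intro j
    exact (Finsupp.le_degree j e).trans he
  have hmon : ∀ (D : ℕ) (e : N →₀ ℕ), e.degree ≤ D →
      Ideal.Quotient.mkₐ k I (monomial e (1 : k)) ∈ W := by
    intro D
    induction D with
    | zero =>
      intro e he
      exact Submodule.subset_span ⟨e, by simp only [Set.mem_ofPred_eq]; omega, rfl⟩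
    | succ D ih =>
      intro e he
      by_cases h0 : e.degree ≤ c0
      · exact Submodule.subset_span ⟨e, h0, rfl⟩
      have hex : ∃ m, E ≤ e m := by
        by_contra hcon
        push Not at hcon
        apply h0
        rw [Finsupp.degree_eq_sum]
        calc ∑ i, e i ≤ ∑ _i : N, E := Finset.sum_le_sum fun i _ => (hcon i).le
          _ = c0 := by simp [c0]
      obtain ⟨m, hm⟩ := hex
      have hsplit : e = Finsupp.single m E + (e - Finsupp.single m E) := by
        ext i
        by_cases hi : i = m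
        · subst hi; simp; omega
        · simp [hi]
      set e' := e - Finsupp.single m E with he'
      have hdeg : e.degree = E + e'.degree := by
        conv_lhs => rw [hsplit]
        rw [map_add, Finsupp.degree_single]
      have hcong : Ideal.Quotient.mkₐ k I (monomial e (1 : k)) =
          Ideal.Quotient.mkₐ k I (Q m * monomial e' (1 : k)) := by
        rw [Ideal.Quotient.mkₐ_eq_mk, Ideal.Quotient.eq, hI]
        intro z hz
        have h1 : (monomial e (1 : k)) = X m ^ E * monomial e' (1 : k) := by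
          rw [X_pow_eq_monomial, monomial_mul, one_mul, ← hsplit]
        rw [h1, map_sub, map_mul, map_mul, map_pow, eval_X, hZ z hz m, sub_self]
      rw [hcong]
      have h2 : Q m * monomial e' (1 : k) =
          ∑ c ∈ (Q m).support, coeff c (Q m) • monomial (c + e') (1 : k) := by
        conv_lhs => rw [(Q m).as_sum, Finset.sum_mul]
        refine Finset.sum_congr rfl fun c _ => ?_
        rw [monomial_mul, smul_monomial, smul_eq_mul]
      rw [h2, map_sum]
      refine Submodule.sum_mem _ fun c hc => ?_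
      rw [map_smul]
      refine Submodule.smul_mem _ _ (ih _ ?_)
      have h3 : c.degree ≤ (Q m).totalDegree := le_totalDegree hc
      have h4 := hQ m
      rw [map_add]
      omega
  have htop : W = ⊤ := by
    rw [eq_top_iff]
    rintro a -
    obtain ⟨f, rfl⟩ := Ideal.Quotient.mkₐ_surjective k I a
    rw [f.as_sum, map_sum]
    refine Submodule.sum_mem _ fun c _ => ?_
    have : (monomial c (coeff c f)) = coeff c f • monomial c (1 : k) := by
      rw [smul_monomial, smul_eq_mul, mul_one]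
    rw [this, map_smul]
    exact Submodule.smul_mem _ _ (hmon _ c le_rfl)
  have hfin : Module.Finite k (MvPolynomial N k ⧸ I) := by
    refine ⟨?_⟩
    rw [← htop]
    exact Submodule.fg_span (hfinset.image _)
  have hroot : ∀ m, ∃ p : Polynomial k, p ≠ 0 ∧ ∀ z ∈ Z, p.IsRoot (z m) := by
    intro m
    obtain ⟨p, hpm, hp⟩ := (Algebra.IsIntegral.isIntegral (R := k)
      (Ideal.Quotient.mkₐ k I (X m)) : IsIntegral k _)
    refine ⟨p, hpm.ne_zero, fun z hz => ?_⟩
    have h1 : Polynomial.aeval (X m : MvPolynomial N k) p ∈ I := by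
      rw [← Ideal.Quotient.eq_zero_iff_mem, ← Ideal.Quotient.mkₐ_eq_mk k,
        ← Polynomial.aeval_algHom_apply]
      exact hp
    have h2 := (hI _).mp h1 z hz
    have h3 : eval z (Polynomial.aeval (X m : MvPolynomial N k) p) = Polynomial.eval (z m) p := by
      rw [← MvPolynomial.coe_aeval_eq_eval, RingHom.coe_coe, ← Polynomial.aeval_algHom_apply,
        aeval_X]
      rfl
    rw [Polynomial.IsRoot, ← h3]
    exact h2
  choose p hp0 hp using hroot
  refine (Set.Finite.pi' (t := fun m => {a | (p m).IsRoot a})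
    (fun m => Polynomial.finite_setOfPred_isRoot (hp0 m))).subset ?_
  intro z hz m
  exact hp m z hz

end alg

section sol

variable {k : Type u} [Field k] {P : Type u} [CommRing P] [Algebra k P] {Γ : Type}
  (b : Basis Γ k P)

theorem repr_map {R R' : Type u} [CommRing R] [Algebra k R] [CommRing R'] [Algebra k R']
    (θ : R →ₐ[k] R') (w : R ⊗[k] P) (γ : Γ) :
    (Algebra.TensorProduct.basis R' b).repr (Algebra.TensorProduct.map θ (AlgHom.id k P) w) γ =
      θ ((Algebra.TensorProduct.basis R b).repr w γ) := by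
  induction w using TensorProduct.induction_on with
  | zero => simp
  | tmul r p =>
    rw [Algebra.TensorProduct.map_tmul, Algebra.TensorProduct.basis_repr_tmul,
      Algebra.TensorProduct.basis_repr_tmul, Finsupp.smul_apply, Finsupp.smul_apply,
      Finsupp.mapRange_apply, Finsupp.mapRange_apply, smul_eq_mul, smul_eq_mul, map_mul,
      AlgHom.commutes, AlgHom.id_apply]
  | add x y hx hy => rw [map_add, map_add, Finsupp.add_apply, hx, hy, map_add, Finsupp.add_apply,
      map_add]

/-- specialisation of the coefficients at a point -/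
noncomputable def spec {N : Type} (z : N → k) : MvPolynomial N k ⊗[k] P →ₐ[k] P :=
  Algebra.TensorProduct.lift ((Algebra.ofId k P).comp (aeval z)) (AlgHom.id k P)
    (fun _ _ => Commute.all _ _)

theorem spec_tmul {N : Type} (z : N → k) (r : MvPolynomial N k) (p : P) :
    spec z (r ⊗ₜ[k] p) = eval z r • p := by
  rw [spec, Algebra.TensorProduct.lift_tmul, AlgHom.comp_apply, AlgHom.id_apply,
    Algebra.ofId_apply, ← Algebra.smul_def]
  rfl

theorem repr_spec {N : Type} (z : N → k) (w : MvPolynomial N k ⊗[k] P) (γ : Γ) :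
    b.repr (spec z w) γ = eval z ((Algebra.TensorProduct.basis (MvPolynomial N k) b).repr w γ) := by
  induction w using TensorProduct.induction_on with
  | zero => simp
  | tmul r p =>
    rw [spec_tmul, Algebra.TensorProduct.basis_repr_tmul, Finsupp.smul_apply,
      Finsupp.mapRange_apply, smul_eq_mul, map_mul, map_smul, Finsupp.smul_apply, smul_eq_mul,
      MvPolynomial.algebraMap_eq, eval_C]
  | add x y hx hy => rw [map_add, map_add, Finsupp.add_apply, hx, hy, map_add, Finsupp.add_apply,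
      map_add]

/-- tensors whose first entries are homogeneous of degree `m` -/
noncomputable def HT (N : Type) (P : Type u) [CommRing P] [Algebra k P] (m : ℕ) :
    Submodule k (MvPolynomial N k ⊗[k] P) :=
  Submodule.span k {w | ∃ (r : MvPolynomial N k) (p : P), r.IsHomogeneous m ∧ w = r ⊗ₜ[k] p}

theorem HT_mul {N : Type} {m m' : ℕ} {w w' : MvPolynomial N k ⊗[k] P}
    (h : w ∈ HT N P m) (h' : w' ∈ HT N P m') : w * w' ∈ HT N P (m + m') := by
  have h1 := Submodule.mul_mem_mul h h'
  rw [HT, HT, Submodule.span_mul_span] at h1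
  refine Submodule.span_mono ?_ h1
  rintro _ ⟨_, ⟨r, p, hr, rfl⟩, _, ⟨r', p', hr', rfl⟩, rfl⟩
  exact ⟨r * r', p * p', hr.mul hr', by simp [Algebra.TensorProduct.tmul_mul_tmul]⟩

theorem HT_one {N : Type} : (1 : MvPolynomial N k ⊗[k] P) ∈ HT N P 0 :=
  Submodule.subset_span ⟨1, 1, isHomogeneous_one _ _, rfl⟩

theorem HT_pow {N : Type} {w : MvPolynomial N k ⊗[k] P} (h : w ∈ HT N P 1) (m : ℕ) :
    w ^ m ∈ HT N P m := by
  induction m with
  | zero => rw [pow_zero]; exact HT_one
  | succ m ih => rw [pow_succ]; exact HT_mul ih h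

theorem HT_aeval {N : Type} {Y : Fin 3 → MvPolynomial N k ⊗[k] P} (hY : ∀ j, Y j ∈ HT N P 1)
    {f : MvPolynomial (Fin 3) k} {m : ℕ} (hf : f.IsHomogeneous m) : aeval Y f ∈ HT N P m := by
  rw [f.as_sum, map_sum]
  refine Submodule.sum_mem _ fun e he => ?_
  rw [aeval_monomial, ← Algebra.smul_def]
  refine Submodule.smul_mem _ _ ?_
  have hdeg : e.degree = m := by
    have := hf (MvPolynomial.mem_support_iff.mp he)
    rw [Finsupp.degree_eq_weight_one]
    exact this
  rw [Finsupp.prod_fintype _ _ (fun _ => pow_zero _)]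
  have h1 : ∀ s : Finset (Fin 3), ∏ j ∈ s, Y j ^ e j ∈ HT N P (∑ j ∈ s, e j) := by
    intro s
    induction s using Finset.induction_on with
    | empty => rw [Finset.prod_empty, Finset.sum_empty]; exact HT_one
    | insert a s ha ih =>
      rw [Finset.prod_insert ha, Finset.sum_insert ha]
      exact HT_mul (HT_pow (hY a) _) ih
  have h2 := h1 Finset.univ
  rwa [← Finsupp.degree_eq_sum, hdeg] at h2

theorem HT_repr {N : Type} {m : ℕ} {w : MvPolynomial N k ⊗[k] P} (h : w ∈ HT N P m) (γ : Γ) :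
    ((Algebra.TensorProduct.basis (MvPolynomial N k) b).repr w γ).IsHomogeneous m := by
  refine Submodule.span_induction (p := fun w _ =>
    ((Algebra.TensorProduct.basis (MvPolynomial N k) b).repr w γ).IsHomogeneous m) ?_ ?_ ?_ ?_ h
  · rintro _ ⟨r, p, hr, rfl⟩
    rw [Algebra.TensorProduct.basis_repr_tmul, Finsupp.smul_apply, Finsupp.mapRange_apply,
      smul_eq_mul, MvPolynomial.algebraMap_eq, mul_comm]
    have := (isHomogeneous_C N (b.repr p γ)).mul hr
    rwa [zero_add] at this
  · rw [map_zero, Finsupp.zero_apply]; exact isHomogeneous_zero _ _ _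
  · intro x y _ _ hx hy
    rw [map_add, Finsupp.add_apply]; exact hx.add hy
  · intro c x _ hx
    have h1 : c • x = (C c : MvPolynomial N k) • x := by
      rw [← MvPolynomial.algebraMap_eq, algebraMap_smul]
    rw [h1, map_smul, Finsupp.smul_apply, smul_eq_mul]
    have := (isHomogeneous_C N c).mul hx
    rwa [zero_add] at this

variable (S : Finset Γ)

/-- the generic triple -/
noncomputable def Xg (j : Fin 3) : MvPolynomial (Fin 3 × S) k ⊗[k] P :=
  ∑ s : S, (X (j, s) : MvPolynomial (Fin 3 × S) k) ⊗ₜ[k] b s.1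

theorem Xg_mem (j : Fin 3) : Xg b S j ∈ HT (Fin 3 × S) P 1 :=
  Submodule.sum_mem _ fun _ _ => Submodule.subset_span ⟨_, _, isHomogeneous_X _ _, rfl⟩

theorem Xg_repr (j : Fin 3) (s : S) :
    (Algebra.TensorProduct.basis (MvPolynomial (Fin 3 × S) k) b).repr (Xg b S j) s.1 =
      X (j, s) := by
  classical
  rw [Xg, map_sum, Finsupp.finsetSum_apply, Finset.sum_eq_single s]
  · rw [Algebra.TensorProduct.basis_repr_tmul, Finsupp.smul_apply, Finsupp.mapRange_apply,
      Basis.repr_self, Finsupp.single_eq_same, map_one, smul_eq_mul, mul_one]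
  · intro s' _ hs'
    rw [Algebra.TensorProduct.basis_repr_tmul, Finsupp.smul_apply, Finsupp.mapRange_apply,
      Basis.repr_self, Finsupp.single_eq_of_ne (fun h => hs' (Subtype.ext h.symm)), map_zero,
      smul_zero]
  · intro h; exact absurd (Finset.mem_univ s) h

/-- coordinates of a triple -/
noncomputable def crd (Y : Fin 3 → P) : Fin 3 × S → k := fun m => b.repr (Y m.1) m.2.1

theorem spec_Xg {Y : Fin 3 → P} (hY : ∀ j, ∀ γ, b.repr (Y j) γ ≠ 0 → γ ∈ S) (j : Fin 3) :
    spec (crd b S Y) (Xg b S j) = Y j := by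
  classical
  refine b.ext_elem fun γ => ?_
  rw [Xg, map_sum, map_sum, Finsupp.finsetSum_apply]
  have h1 : ∀ s : S, b.repr (spec (crd b S Y) ((X (j, s) : MvPolynomial (Fin 3 × S) k) ⊗ₜ[k] b s.1)) γ
      = if s.1 = γ then b.repr (Y j) s.1 else 0 := by
    intro s
    rw [spec_tmul, eval_X, map_smul, Finsupp.smul_apply, Basis.repr_self, Finsupp.single_apply]
    split_ifs with h
    · rw [smul_eq_mul, mul_one]; rfl
    · rw [smul_zero]
  rw [Finset.sum_congr rfl fun s _ => h1 s]
  by_cases hγ : γ ∈ S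
  · rw [Finset.sum_eq_single ⟨γ, hγ⟩]
    · rw [if_pos rfl]
    · intro s _ hs
      rw [if_neg fun h => hs (Subtype.ext h)]
    · intro h; exact absurd (Finset.mem_univ _) h
  · have h2 : b.repr (Y j) γ = 0 := by
      by_contra hne
      exact hγ (hY j γ hne)
    rw [h2]
    refine Finset.sum_eq_zero fun s _ => if_neg fun h => hγ (by rw [← h]; exact s.2)

/-- the coordinates of the partial derivatives at the generic triple -/
noncomputable def tau (Ω : MvPolynomial (Fin 3) k) (a : Fin 3 × Γ) : MvPolynomial (Fin 3 × S) k :=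
  (Algebra.TensorProduct.basis (MvPolynomial (Fin 3 × S) k) b).repr
    (aeval (Xg b S) (pderiv a.1 Ω)) a.2

theorem gen_nilp {Ω : MvPolynomial (Fin 3) k} {n : ℕ} (hpid : PowId Ω n)
    (hred : ∀ (κ : Type u) [Field κ] [Algebra k κ], IsReduced (κ ⊗[k] P)) (m : Fin 3 × S) :
    (X m : MvPolynomial (Fin 3 × S) k) ∈ (Ideal.span (Set.range (tau b S Ω))).radical := by
  rw [Ideal.radical_eq_sInf, Ideal.mem_sInf]
  rintro q ⟨hle, hprime⟩
  have hdom : IsDomain (MvPolynomial (Fin 3 × S) k ⧸ q) := Ideal.Quotient.isDomain q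
  let κ := FractionRing (MvPolynomial (Fin 3 × S) k ⧸ q)
  let θ : MvPolynomial (Fin 3 × S) k →ₐ[k] κ :=
    (IsScalarTower.toAlgHom k (MvPolynomial (Fin 3 × S) k ⧸ q) κ).comp (Ideal.Quotient.mkₐ k q)
  have hθ : ∀ r, θ r = 0 ↔ r ∈ q := by
    intro r
    change algebraMap (MvPolynomial (Fin 3 × S) k ⧸ q) κ (Ideal.Quotient.mk q r) = 0 ↔ _
    rw [FaithfulSMul.algebraMap_eq_zero_iff, Ideal.Quotient.eq_zero_iff_mem]
  let Θ : MvPolynomial (Fin 3 × S) k ⊗[k] P →ₐ[k] κ ⊗[k] P :=
    Algebra.TensorProduct.map θ (AlgHom.id k P)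
  have hrepr : ∀ w γ, (Algebra.TensorProduct.basis κ b).repr (Θ w) γ =
      θ ((Algebra.TensorProduct.basis (MvPolynomial (Fin 3 × S) k) b).repr w γ) :=
    fun w γ => repr_map b θ w γ
  have hΘ : ∀ f : MvPolynomial (Fin 3) k, Θ (aeval (Xg b S) f) =
      aeval (fun j => Θ (Xg b S j)) f := by
    intro f
    rw [← AlgHom.comp_apply, comp_aeval]
  have hpd : ∀ l, aeval (fun j => Θ (Xg b S j)) (pderiv l Ω) = 0 := by
    intro l
    rw [← hΘ]
    refine (Algebra.TensorProduct.basis κ b).ext_elem fun γ => ?_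
    rw [hrepr, map_zero, Finsupp.zero_apply, hθ]
    exact hle (Ideal.subset_span ⟨(l, γ), rfl⟩)
  have h0 : Θ (Xg b S m.1) = 0 := by
    obtain ⟨r, -, g, -, e⟩ := hpid m.1
    have h1 := congrArg (aeval fun j => Θ (Xg b S j)) e
    rw [map_pow, aeval_X, map_sum] at h1
    have h2 : (Θ (Xg b S m.1)) ^ r = 0 := by
      rw [h1]
      exact Finset.sum_eq_zero fun l _ => by rw [map_mul, hpd, mul_zero]
    have := hred κ
    exact (show IsNilpotent (Θ (Xg b S m.1)) from ⟨r, h2⟩).eq_zero
  have h3 := hrepr (Xg b S m.1) m.2.1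
  rw [h0, map_zero, Finsupp.zero_apply, Xg_repr] at h3
  exact (hθ _).mp h3.symm

/-- homogeneous version: a high power of each coordinate is a combination of the `tau` with
homogeneous coefficients -/
theorem gen_pow {Ω : MvPolynomial (Fin 3) k} {n : ℕ} (hΩ : Ω.IsHomogeneous n) (hpid : PowId Ω n)
    (hred : ∀ (κ : Type u) [Field κ] [Algebra k κ], IsReduced (κ ⊗[k] P)) (m : Fin 3 × S) :
    ∃ E0 : ℕ, ∀ E ≥ E0, ∃ (T : Finset (Fin 3 × Γ)) (c : Fin 3 × Γ → MvPolynomial (Fin 3 × S) k),
      (∀ a, (c a).IsHomogeneous (E - (n - 1))) ∧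
        (X m : MvPolynomial (Fin 3 × S) k) ^ E = ∑ a ∈ T, c a * tau b S Ω a := by
  obtain ⟨e, he⟩ := gen_nilp b S hpid hred m
  refine ⟨max e (n - 1), fun E hE => ?_⟩
  have h1 : (X m : MvPolynomial (Fin 3 × S) k) ^ E ∈ Ideal.span (Set.range (tau b S Ω)) := by
    have : E = (E - e) + e := by omega
    rw [this, pow_add]
    exact Ideal.mul_mem_left _ _ he
  rw [Ideal.span, Finsupp.mem_span_range_iff_exists_finsupp] at h1
  obtain ⟨c, hc⟩ := h1
  refine ⟨c.support, fun a => homogeneousComponent (E - (n - 1)) (c a),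
    fun a => homogeneousComponent_isHomogeneous _ _, ?_⟩
  have h2 := congrArg (homogeneousComponent E) hc
  rw [homogeneousComponent_of_mem (isHomogeneous_X_pow m E), if_pos rfl, Finsupp.sum, map_sum] at h2
  rw [← h2]
  refine Finset.sum_congr rfl fun a _ => ?_
  rw [smul_eq_mul]
  have h3 : (tau b S Ω a).IsHomogeneous (n - 1) := HT_repr b (HT_aeval (Xg_mem b S) hΩ.pderiv) _
  have h4 : n - 1 ≤ E := (le_max_right e (n - 1)).trans hE
  exact homComp_mul_homogeneous h3 h4

/-- the quadratic polynomial giving a coordinate of the bracket of two entries -/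
noncomputable def quad (bra : P →ₗ[k] P →ₗ[k] P) (a : Fin 3 × Γ) : MvPolynomial (Fin 3 × S) k :=
  ∑ s : S, ∑ s' : S, X (a.1 + 1, s) * X (a.1 + 2, s') * C (b.repr (bra (b s.1) (b s'.1)) a.2)

theorem quad_deg (bra : P →ₗ[k] P →ₗ[k] P) (a : Fin 3 × Γ) :
    (quad b S bra a).totalDegree ≤ 2 := by
  refine totalDegree_finsetSum_le fun s _ => totalDegree_finsetSum_le fun s' _ => ?_
  refine (totalDegree_mul _ _).trans ?_
  rw [totalDegree_C, add_zero]
  refine (totalDegree_mul _ _).trans ?_
  rw [totalDegree_X, totalDegree_X]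

theorem eq_sum_crd {Y : Fin 3 → P} (hY : ∀ j, ∀ γ, b.repr (Y j) γ ≠ 0 → γ ∈ S) (j : Fin 3) :
    Y j = ∑ s : S, crd b S Y (j, s) • b s.1 := by
  have h := spec_Xg b S hY j
  rw [Xg, map_sum] at h
  rw [← h]
  refine Finset.sum_congr rfl fun s _ => ?_
  rw [spec_tmul, eval_X]

theorem eval_quad (bra : P →ₗ[k] P →ₗ[k] P) (a : Fin 3 × Γ) {Y : Fin 3 → P}
    (hY : ∀ j, ∀ γ, b.repr (Y j) γ ≠ 0 → γ ∈ S) :
    eval (crd b S Y) (quad b S bra a) = b.repr (bra (Y (a.1 + 1)) (Y (a.1 + 2))) a.2 := by
  conv_rhs => rw [eq_sum_crd b S hY (a.1 + 1), eq_sum_crd b S hY (a.1 + 2)]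
  rw [quad, map_sum, LinearMap.map_sum₂, map_sum, Finsupp.finsetSum_apply]
  refine Finset.sum_congr rfl fun s _ => ?_
  rw [map_sum, map_sum, map_sum, Finsupp.finsetSum_apply]
  refine Finset.sum_congr rfl fun s' _ => ?_
  rw [map_mul, map_mul, eval_X, eval_X, eval_C, map_smul, LinearMap.map_smul₂, map_smul, map_smul,
    Finsupp.smul_apply, Finsupp.smul_apply, smul_eq_mul, smul_eq_mul]
  ring

theorem eval_tau {Ω : MvPolynomial (Fin 3) k} (a : Fin 3 × Γ) {Y : Fin 3 → P}
    (hY : ∀ j, ∀ γ, b.repr (Y j) γ ≠ 0 → γ ∈ S) :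
    eval (crd b S Y) (tau b S Ω a) = b.repr (aeval Y (pderiv a.1 Ω)) a.2 := by
  rw [tau, ← repr_spec]
  congr 2
  rw [← AlgHom.comp_apply, comp_aeval]
  congr 2
  funext j
  exact spec_Xg b S hY j

/-- the set of triples with coordinates in `S` whose brackets are the partial derivatives of `Ω`
at the triple is finite -/
theorem finite_sol (bra : P →ₗ[k] P →ₗ[k] P) {Ω : MvPolynomial (Fin 3) k} {n : ℕ} (hn : 4 ≤ n)
    (hΩ : Ω.IsHomogeneous n) (hpid : PowId Ω n)
    (hred : ∀ (κ : Type u) [Field κ] [Algebra k κ], IsReduced (κ ⊗[k] P)) :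
    {Y : Fin 3 → P | (∀ j, ∀ γ, b.repr (Y j) γ ≠ 0 → γ ∈ S) ∧
      ∀ l : Fin 3, bra (Y (l + 1)) (Y (l + 2)) = aeval Y (pderiv l Ω)}.Finite := by
  classical
  set Sol := {Y : Fin 3 → P | (∀ j, ∀ γ, b.repr (Y j) γ ≠ 0 → γ ∈ S) ∧
      ∀ l : Fin 3, bra (Y (l + 1)) (Y (l + 2)) = aeval Y (pderiv l Ω)} with hSol
  have hE := fun m => gen_pow b S hΩ hpid hred m
  choose E0 hE0 using hE
  let E := Finset.univ.sup E0 + n
  have hEm : ∀ m, E0 m ≤ E := fun m =>
    (Finset.le_sup (f := E0) (Finset.mem_univ m)).trans (Nat.le_add_right _ _)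
  have hEn : n ≤ E := Nat.le_add_left _ _
  have hE1 := fun m => hE0 m E (hEm m)
  choose T c hc hT using hE1
  have hfin : (crd b S '' Sol).Finite := by
    refine finite_of_power _ E (fun m => ∑ a ∈ T m, c m a * quad b S bra a) ?_ ?_
    · intro m
      have h1 : (∑ a ∈ T m, c m a * quad b S bra a).totalDegree ≤ (E - (n - 1)) + 2 := by
        refine totalDegree_finsetSum_le fun a _ => (totalDegree_mul _ _).trans ?_
        exact add_le_add (hc m a).totalDegree_le (quad_deg b S bra a)
      refine h1.trans_lt ?_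
      omega
    · rintro _ ⟨Y, ⟨hY, hbr⟩, rfl⟩ m
      have h1 := congrArg (eval (crd b S Y)) (hT m)
      rw [map_pow, eval_X] at h1
      rw [h1, map_sum, map_sum]
      refine Finset.sum_congr rfl fun a _ => ?_
      rw [map_mul, map_mul, eval_tau b S a hY, eval_quad b S bra a hY, hbr a.1]
  refine Set.Finite.of_finite_image hfin ?_
  rintro Y ⟨hY, -⟩ Y' ⟨hY', -⟩ h
  funext j
  rw [eq_sum_crd b S hY j, eq_sum_crd b S hY' j, h]

end sol

end Q20.Dix
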