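import Pool.Agent.Q20.Dix.Fac

/-! Linear independence of standard monomials as functions on affine surfaces, and of products. -/

open MvPolynomial Module

namespace Q20.Dix

universe u v w

section abs

variable {K : Type u} [Field K]

theorem exists_dual {B : Type v} {V : Type w} [DecidableEq B] {φ : B → V → K}
    (h : LinearIndependent K φ) (s : Finset B) (β : B) :
    ∃ c : V →₀ K, ∀ β' ∈ s, (c.sum fun q a => a * φ β' q) = if β' = β then 1 else 0 := by
  classical
  let Φ : (V →₀ K) →ₗ[K] (s → K) :=
    LinearMap.pi fun b => Finsupp.lsum K fun q => LinearMap.mulRight K (φ b.1 q)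
  have hΦ : ∀ c (b : s), Φ c b = c.sum fun q a => a * φ b.1 q := by
    intro c b
    simp [Φ, Finsupp.sum]
  have hsurj : LinearMap.range Φ = ⊤ := by
    by_contra hne
    obtain ⟨f, hf0, hf⟩ := Submodule.exists_le_ker_of_lt_top _ (lt_top_iff_ne_top.mpr hne)
    apply hf0
    have hrep : ∀ x : s → K, f x = ∑ b, x b * f (Pi.single b 1) := by
      intro x
      conv_lhs => rw [← LinearMap.sum_single_apply (fun _ : s => K) x, map_sum]
      refine Finset.sum_congr rfl fun b _ => ?_
      have : (Pi.single b (x b) : s → K) = x b • Pi.single b (1 : K) := by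
        rw [← Pi.single_smul, smul_eq_mul, mul_one]
      change f (Pi.single b (x b)) = _
      rw [this, map_smul, smul_eq_mul]
    have h1 : ∀ q : V, ∑ b : s, f (Pi.single b 1) * φ b.1 q = 0 := by
      intro q
      have h2 : Φ (Finsupp.single q 1) ∈ LinearMap.range Φ := ⟨_, rfl⟩
      have h3 : f (Φ (Finsupp.single q 1)) = 0 := hf h2
      rw [hrep] at h3
      rw [← h3]
      refine Finset.sum_congr rfl fun b _ => ?_
      rw [hΦ, Finsupp.sum_single_index (by simp)]
      ring
    have h4 : LinearIndependent K (fun b : s => φ b.1) := h.comp _ Subtype.val_injective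
    rw [Fintype.linearIndependent_iff] at h4
    have h5 := h4 (fun b => f (Pi.single b 1)) (by
      ext q
      simpa using h1 q)
    ext b
    simpa using h5 b
  obtain ⟨c, hc⟩ := LinearMap.range_eq_top.mp hsurj
    (fun b => if b.1 = β then 1 else 0)
  refine ⟨c, fun β' hβ' => ?_⟩
  rw [← hΦ c ⟨β', hβ'⟩, hc]

/-- products of linearly independent families of functions in separate variables are linearly
independent -/
theorem indep_prod {I : Type} [Fintype I] [DecidableEq I] {B : I → Type v} {V : I → Type w}
    {φ : ∀ i, B i → V i → K} (h : ∀ i, LinearIndependent K (φ i))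
    (u : (∀ i, B i) →₀ K) (hu : ∀ p : ∀ i, V i, (u.sum fun γ a => a * ∏ i, φ i (γ i) (p i)) = 0) :
    u = 0 := by
  classical
  ext γ0
  rw [Finsupp.zero_apply]
  by_contra hne
  have hmem : γ0 ∈ u.support := by simpa using hne
  have hc : ∀ i, ∃ c : V i →₀ K, ∀ β' ∈ u.support.image (fun γ => γ i),
      (c.sum fun q a => a * φ i β' q) = if β' = γ0 i then 1 else 0 := fun i =>
    exists_dual (h i) _ _
  choose c hc using hc
  have key : ∑ p ∈ Fintype.piFinset (fun i => (c i).support),
      (∏ i, c i (p i)) * (u.sum fun γ a => a * ∏ i, φ i (γ i) (p i)) = u γ0 := by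
    simp only [Finsupp.sum, Finset.mul_sum]
    rw [Finset.sum_comm]
    have h1 : ∀ γ ∈ u.support, (∑ p ∈ Fintype.piFinset (fun i => (c i).support),
        (∏ i, c i (p i)) * (u γ * ∏ i, φ i (γ i) (p i))) = if γ = γ0 then u γ else 0 := by
      intro γ hγ
      have h2 : (∑ p ∈ Fintype.piFinset (fun i => (c i).support),
          (∏ i, c i (p i)) * (u γ * ∏ i, φ i (γ i) (p i))) =
          u γ * ∏ i, ∑ q ∈ (c i).support, c i q * φ i (γ i) q := by
        rw [Finset.prod_univ_sum, Finset.mul_sum]
        refine Finset.sum_congr rfl fun p _ => ?_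
        rw [Finset.prod_mul_distrib]
        ring
      rw [h2]
      have h3 : ∀ i, ∑ q ∈ (c i).support, c i q * φ i (γ i) q =
          if γ i = γ0 i then 1 else 0 := fun i =>
        hc i (γ i) (Finset.mem_image_of_mem _ hγ)
      simp only [h3]
      by_cases hg : γ = γ0
      · subst hg; simp
      · rw [if_neg hg]
        obtain ⟨i, hi⟩ := Function.ne_iff.mp hg
        rw [Finset.prod_eq_zero (Finset.mem_univ i) (if_neg hi), mul_zero]
    rw [Finset.sum_congr rfl h1, Finset.sum_ite_eq', if_pos hmem]
  rw [← key] at hne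
  exact hne (Finset.sum_eq_zero fun p _ => by rw [hu, mul_zero])

end abs

variable {k : Type u} [Field k]

theorem coeff_lcK {Ω : MvPolynomial (Fin 3) k} {K : Type v} [Field K] (l : Std Ω →₀ K)
    (e : Std Ω) :
    coeff e.1 (Finsupp.linearCombination K (fun e : Std Ω => (monomial e.1 (1 : K))) l) = l e := by
  classical
  rw [Finsupp.linearCombination_apply, Finsupp.sum, coeff_sum]
  have : ∀ i ∈ l.support, coeff e.1 (l i • (monomial i.1 (1 : K))) = if i = e then l i else 0 := by
    intro i _
    rw [coeff_smul, coeff_monomial]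
    by_cases h : i = e
    · subst h; simp
    · rw [if_neg h, if_neg (fun h' => h (Subtype.ext h')), smul_zero]
  rw [Finset.sum_congr rfl this, Finset.sum_ite_eq']
  split_ifs with h
  · rfl
  · rw [Finsupp.notMem_support_iff] at h
    exact h.symm

theorem stdP_lcK {Ω : MvPolynomial (Fin 3) k} {K : Type v} [Field K] (l : Std Ω →₀ K) :
    StdP (lex Ω) (Finsupp.linearCombination K (fun e : Std Ω => (monomial e.1 (1 : K))) l) := by
  classical
  intro c hc hle
  rw [MvPolynomial.mem_support_iff] at hc
  apply hc
  rw [Finsupp.linearCombination_apply, Finsupp.sum, coeff_sum]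
  refine Finset.sum_eq_zero fun i _ => ?_
  rw [coeff_smul, coeff_monomial, if_neg, smul_zero]
  rintro rfl
  exact i.2 hle

theorem lex_map (Ω : MvPolynomial (Fin 3) k) {K : Type v} [Field K] (f : k →+* K) :
    lex (MvPolynomial.map f Ω) = lex Ω := by
  have h : (MvPolynomial.map f Ω).support = Ω.support :=
    support_map_of_injective _ f.injective
  unfold lex MonomialOrder.degree
  rw [h]

/-- standard monomials are linearly independent functions on every level surface of `Ω` -/
theorem Dat.indep (d : Dat k) {K : Type v} [Field K] [IsAlgClosed K] [Algebra k K] (ξ : K) :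
    LinearIndependent K (fun (e : Std d.Ω) (q : {x : Fin 3 → K // aeval x d.Ω = ξ}) =>
      mon q.1 e.1) := by
  rw [linearIndependent_iff]
  intro l hl
  set F := Finsupp.linearCombination K (fun e : Std d.Ω => (monomial e.1 (1 : K))) l with hF
  set Φ : MvPolynomial (Fin 3) K := MvPolynomial.map (algebraMap k K) d.Ω - C ξ with hΦ
  have hpid : PowId (MvPolynomial.map (algebraMap k K) d.Ω) d.n := d.pid.map _
  have hsq : Squarefree Φ := squarefree_sub hpid ξ
  have hlex : lex Φ = lex d.Ω := by
    rw [hΦ, lex_sub (d.hom.map _) (by have := d.hn; omega) (ne_zero_of_powId hpid) ξ, lex_map]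
  have h1 : F = 0 := by
    refine std_eq_zero_of_vanish hsq ?_ ?_
    · have h3 := stdP_lcK (K := K) l
      rw [← hF] at h3
      change StdP (lex Φ) F
      rw [hlex]
      exact h3
    · intro p hp
      have hp' : aeval p d.Ω = ξ := by
        rw [hΦ, map_sub, eval_C, eval_map, sub_eq_zero] at hp
        rw [aeval_def]
        exact hp
      have h2 := congrFun hl ⟨p, hp'⟩
      rw [Finsupp.linearCombination_apply] at h2
      rw [hF, Finsupp.linearCombination_apply]
      simp only [Finsupp.sum, map_sum, Finset.sum_apply, Pi.smul_apply, smul_eq_mul,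
        Pi.zero_apply] at h2 ⊢
      rw [← h2]
      refine Finset.sum_congr rfl fun e _ => ?_
      rw [smul_eval, mon]
  ext e
  have := coeff_lcK l e
  rw [← hF, h1] at this
  simpa using this.symm

end Q20.Dix
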