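import Pool.Agent.Q20.Dix.Red
import Pool.Agent.Q20.Dix.Fin

/-! Poisson endomorphisms of tensor products of potential quotients. -/

open MvPolynomial Module PiTensorProduct TensorProduct

namespace Q20.Dix

universe u v

variable {k : Type u} [Field k] {I : Type} [Fintype I] [DecidableEq I]

set_option linter.unusedSectionVars false

section bound

variable (D : I → Dat k)

theorem aeval_mem_Fil {Y : Fin 3 → P D} {m : ℕ} (hY : ∀ j, Y j ∈ Fil (basP D) (wtP D) m)
    {f : MvPolynomial (Fin 3) k} {e : ℕ} (hf : f.IsHomogeneous e) :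
    aeval Y f ∈ Fil (basP D) (wtP D) (e * m) := by
  rw [f.as_sum, map_sum]
  refine Submodule.sum_mem _ fun c hc => ?_
  rw [aeval_monomial, ← Algebra.smul_def]
  refine Submodule.smul_mem _ _ ?_
  have hdeg : c.degree = e := by
    have := hf (MvPolynomial.mem_support_iff.mp hc)
    rw [Finsupp.degree_eq_weight_one]
    exact this
  rw [Finsupp.prod_fintype _ _ (fun _ => pow_zero _)]
  have h1 : ∀ s : Finset (Fin 3), ∏ j ∈ s, Y j ^ c j ∈
      Fil (basP D) (wtP D) ((∑ j ∈ s, c j) * m) := by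
    intro s
    induction s using Finset.induction_on with
    | empty => rw [Finset.prod_empty, Finset.sum_empty, Nat.zero_mul]; exact one_mem_Fil D
    | insert a s ha ih =>
      rw [Finset.prod_insert ha, Finset.sum_insert ha, Nat.add_mul]
      exact mul_mem_Fil D (pow_mem_Fil D (hY a) _) ih
  have h2 := h1 Finset.univ
  rwa [← Finsupp.degree_eq_sum, hdeg] at h2

/-- a triple whose brackets are the partial derivatives of a potential has bounded degree -/
theorem bound {Ω : MvPolynomial (Fin 3) k} {n : ℕ} (hn : 4 ≤ n) (hpid : PowId Ω n)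
    {Y : Fin 3 → P D}
    (hbr : ∀ l : Fin 3, tbr (fun i => (D i).Ω) (fun i => (D i).ξ) (Y (l + 1)) (Y (l + 2)) =
      aeval Y (pderiv l Ω)) (j : Fin 3) : Y j ∈ Fil (basP D) (wtP D) (∑ i, (D i).n) := by
  set s := ∑ i, (D i).n with hs
  have main : ∀ m, (∀ j, Y j ∈ Fil (basP D) (wtP D) m) → ∀ j, Y j ∈ Fil (basP D) (wtP D) s := by
    intro m
    induction m with
    | zero => intro h j; exact Fil_mono _ _ (Nat.zero_le _) (h j)
    | succ m ih =>
      intro h
      by_cases hle : m + 1 ≤ s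
      · intro j; exact Fil_mono _ _ hle (h j)
      refine ih fun j => ?_
      obtain ⟨r, hr, g, hg, e⟩ := hpid j
      have h1 : Y j ^ r = ∑ l, aeval Y (g l) *
          tbr (fun i => (D i).Ω) (fun i => (D i).ξ) (Y (l + 1)) (Y (l + 2)) := by
        have h2 := congrArg (aeval Y) e
        rw [map_pow, aeval_X, map_sum] at h2
        rw [h2]
        refine Finset.sum_congr rfl fun l _ => ?_
        rw [map_mul, hbr]
      have h3 : Y j ^ r ∈ Fil (basP D) (wtP D) (r * (m + 1) - 1) := by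
        rw [h1]
        refine Submodule.sum_mem _ fun l _ => ?_
        refine Fil_mono _ _ ?_ (mul_mem_Fil D (aeval_mem_Fil D h (hg l))
          (tbr_mem_Fil D (h (l + 1)) (h (l + 2))))
        obtain ⟨t, ht⟩ : ∃ t, r = t + (n - 1) := ⟨r - (n - 1), by omega⟩
        have ht' : r - (n - 1) = t := by omega
        rw [ht', ht, Nat.add_mul]
        have h4 : 3 * (m + 1) ≤ (n - 1) * (m + 1) := Nat.mul_le_mul_right _ (by omega)
        omega
      exact mem_Fil_pred_of_pow D (by omega) (by omega) (h j) h3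
  have hex : ∃ m, ∀ j, Y j ∈ Fil (basP D) (wtP D) m := by
    choose e he using fun j => exists_mem_Fil (basP D) (wtP D) (Y j)
    exact ⟨Finset.univ.sup e, fun j => Fil_mono _ _ (Finset.le_sup (Finset.mem_univ j)) (he j)⟩
  obtain ⟨m, hm⟩ := hex
  exact main m hm j

/-- the set of triples in the tensor product whose brackets are the partial derivatives of a
potential of degree at least four is finite -/
theorem finite_triples {Ω : MvPolynomial (Fin 3) k} {n : ℕ} (hn : 4 ≤ n)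
    (hΩ : Ω.IsHomogeneous n) (hpid : PowId Ω n) :
    {Y : Fin 3 → P D | ∀ l : Fin 3,
      tbr (fun i => (D i).Ω) (fun i => (D i).ξ) (Y (l + 1)) (Y (l + 2)) =
        aeval Y (pderiv l Ω)}.Finite := by
  classical
  have h1 := finite_sol (basP D) (finite_le D (∑ i, (D i).n)).toFinset
    (tbr (fun i => (D i).Ω) (fun i => (D i).ξ)) hn hΩ hpid (fun κ _ _ => reduced D κ)
  refine h1.subset ?_
  intro Y hY
  refine ⟨fun j γ hγ => ?_, hY⟩
  rw [Set.Finite.mem_toFinset]
  exact bound D hn hpid hY j γ hγ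

end bound

/-- a map of the tensor product preserves the Poisson bracket -/
def IsPoisson (Ω : I → MvPolynomial (Fin 3) k) (ξ : I → k) (φ : PT Ω ξ → PT Ω ξ) : Prop :=
  ∀ a b, φ (tbr Ω ξ a b) = tbr Ω ξ (φ a) (φ b)

theorem br_one_one (Ω : MvPolynomial (Fin 3) k) (ξ : k) : br Ω ξ 1 1 = 0 := by
  rw [← map_one (mkA Ω ξ), br_mk, jac_eq]
  simp

theorem tbr_single (Ω : I → MvPolynomial (Fin 3) k) (ξ : I → k) (i : I) (a b : A (Ω i) (ξ i)) :
    tbr Ω ξ (singleAlgHom i a) (singleAlgHom i b) = singleAlgHom i (br (Ω i) (ξ i) a b) := by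
  rw [singleAlgHom_apply, singleAlgHom_apply, singleAlgHom_apply, tbr_tprod,
    Finset.sum_eq_single i]
  · congr 1
    funext j
    by_cases h : j = i
    · subst h; simp
    · simp [Function.update_of_ne h, Pi.mulSingle_eq_of_ne h]
  · intro j _ hj
    refine MultilinearMap.map_coord_zero _ j ?_
    rw [Function.update_self, MonoidHom.mulSingle_apply, MonoidHom.mulSingle_apply,
      Pi.mulSingle_eq_of_ne hj, Pi.mulSingle_eq_of_ne hj, br_one_one]
  · intro h; exact absurd (Finset.mem_univ i) h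

theorem jac_X (Ω : MvPolynomial (Fin 3) k) (l : Fin 3) :
    jac (X (l + 1)) (X (l + 2)) Ω = pderiv l Ω := by
  rw [jac_eq]
  fin_cases l <;> simp [pderiv_X]

theorem main (Ω : I → MvPolynomial (Fin 3) k) (n : I → ℕ) (hn : ∀ i, 4 ≤ n i)
    (hΩ : ∀ i, (Ω i).IsHomogeneous (n i)) (hpot : ∀ i, IsPot (Ω i)) (ξ : I → k) :
    {φ : PT Ω ξ →ₐ[k] PT Ω ξ | IsPoisson Ω ξ φ}.Finite := by
  classical
  let D : I → Dat k := fun i => ⟨Ω i, ξ i, n i, hn i, hΩ i,
    powId_of_isPot (hΩ i) (by have := hn i; omega) (hpot i)⟩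
  have hfin : ∀ i, {Y : Fin 3 → PT Ω ξ | ∀ l : Fin 3,
      tbr Ω ξ (Y (l + 1)) (Y (l + 2)) = aeval Y (pderiv l (Ω i))}.Finite := fun i =>
    finite_triples D (hn i) (hΩ i) (D i).pid
  let F : (PT Ω ξ →ₐ[k] PT Ω ξ) → I → Fin 3 → PT Ω ξ := fun φ i j =>
    φ (singleAlgHom i (mkA (Ω i) (ξ i) (X j)))
  have hF : ∀ φ i f, φ (singleAlgHom i (mkA (Ω i) (ξ i) f)) = aeval (F φ i) f := by
    intro φ i f
    have h1 : ((φ.comp (singleAlgHom i)).comp (mkA (Ω i) (ξ i))) = aeval (F φ i) := by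
      refine MvPolynomial.algHom_ext fun j => ?_
      rw [aeval_X]; rfl
    exact DFunLike.congr_fun h1 f
  refine Set.Finite.of_finite_image (f := F) ((Set.Finite.pi' hfin).subset ?_) ?_
  · rintro _ ⟨φ, hφ, rfl⟩ i l
    have h1 := hφ (singleAlgHom i (mkA (Ω i) (ξ i) (X (l + 1))))
      (singleAlgHom i (mkA (Ω i) (ξ i) (X (l + 2))))
    rw [tbr_single, br_mk, jac_X, hF] at h1
    exact h1.symm
  · intro φ _ ψ _ h
    refine PiTensorProduct.algHom_ext fun i => ?_
    refine AlgHom.ext fun a => ?_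
    obtain ⟨f, rfl⟩ := mkA_surj _ _ a
    rw [AlgHom.comp_apply, AlgHom.comp_apply, hF, hF, h]

theorem IsPoisson.comp {Ω : I → MvPolynomial (Fin 3) k} {ξ : I → k} {φ ψ : PT Ω ξ → PT Ω ξ}
    (h : IsPoisson Ω ξ φ) (h' : IsPoisson Ω ξ ψ) : IsPoisson Ω ξ (φ ∘ ψ) := by
  intro a b
  rw [Function.comp_apply, h' a b, h]
  rfl

theorem main_all (Ω : I → MvPolynomial (Fin 3) k) (n : I → ℕ) (hn : ∀ i, 4 ≤ n i)
    (hΩ : ∀ i, (Ω i).IsHomogeneous (n i)) (hpot : ∀ i, IsPot (Ω i)) (ξ : I → k) :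
    (∀ φ : PT Ω ξ →ₐ[k] PT Ω ξ, IsPoisson Ω ξ φ → Function.Injective φ → Function.Bijective φ) ∧
    {φ : PT Ω ξ ≃ₐ[k] PT Ω ξ | IsPoisson Ω ξ φ}.Finite ∧
    {φ : PT Ω ξ →ₐ[k] PT Ω ξ | IsPoisson Ω ξ φ}.Finite := by
  have hm := main Ω n hn hΩ hpot ξ
  refine ⟨?_, ?_, hm⟩
  · intro φ hφ hinj
    refine ⟨hinj, ?_⟩
    have hpow : ∀ m : ℕ, IsPoisson Ω ξ (φ ^ m : PT Ω ξ →ₐ[k] PT Ω ξ) := by
      intro m
      induction m with
      | zero => intro a b; rfl
      | succ m ih =>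
        intro a b
        rw [pow_succ', AlgHom.mul_apply, AlgHom.mul_apply, AlgHom.mul_apply, ih a b, hφ]
    have hinjpow : ∀ m : ℕ, Function.Injective (φ ^ m : PT Ω ξ →ₐ[k] PT Ω ξ) := by
      intro m
      induction m with
      | zero => exact fun a b h => h
      | succ m ih =>
        intro a b h
        rw [pow_succ', AlgHom.mul_apply, AlgHom.mul_apply] at h
        exact ih (hinj h)
    obtain ⟨a, -, b, -, hab, he⟩ := Set.infinite_univ.exists_ne_map_eq_of_mapsTo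
      (f := fun m : ℕ => (φ ^ m : PT Ω ξ →ₐ[k] PT Ω ξ)) (t := {ψ : PT Ω ξ →ₐ[k] PT Ω ξ | IsPoisson Ω ξ ψ})
      (fun m _ => hpow m) hm
    have key : ∀ a b : ℕ, a < b → (φ ^ a : PT Ω ξ →ₐ[k] PT Ω ξ) = φ ^ b →
        Function.Surjective φ := by
      intro a b hlt he y
      obtain ⟨c, rfl⟩ := Nat.exists_eq_add_of_lt hlt
      refine ⟨(φ ^ c) y, hinjpow a ?_⟩
      have h1 : φ ^ (a + c + 1) = φ ^ a * (φ * φ ^ c) := by
        rw [← pow_succ', ← pow_add]; rfl
      rw [h1] at he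
      have h2 := DFunLike.congr_fun he y
      rw [AlgHom.mul_apply, AlgHom.mul_apply] at h2
      exact h2.symm
    rcases lt_or_gt_of_ne hab with h | h
    · exact key a b h he
    · exact key b a h he.symm
  · refine Set.Finite.of_finite_image (f := fun φ : PT Ω ξ ≃ₐ[k] PT Ω ξ =>
      (φ : PT Ω ξ →ₐ[k] PT Ω ξ)) (hm.subset ?_) ?_
    · rintro _ ⟨φ, hφ, rfl⟩
      exact hφ
    · intro φ _ ψ _ h
      ext a
      exact DFunLike.congr_fun h a

end Q20.Dix
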