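import Mathlib

/-! Isolated singularity potentials in three variables: power identities,
squarefreeness, standard monomials. -/

open MvPolynomial

namespace Q20.Dix

universe u v

variable {k : Type u} [Field k]

/-- `Ω` is an isolated singularity potential: the Jacobian quotient is finite dimensional. -/
def IsPot (Ω : MvPolynomial (Fin 3) k) : Prop :=
  Module.Finite k (MvPolynomial (Fin 3) k ⧸ Ideal.span (Set.range fun j : Fin 3 => pderiv j Ω))

/-- working form of the isolated singularity hypothesis -/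
def PowId (Ω : MvPolynomial (Fin 3) k) (n : ℕ) : Prop :=
  ∀ j : Fin 3, ∃ r : ℕ, n ≤ r ∧ ∃ g : Fin 3 → MvPolynomial (Fin 3) k,
    (∀ l, (g l).IsHomogeneous (r - (n - 1))) ∧
      (X j : MvPolynomial (Fin 3) k) ^ r = ∑ l, g l * pderiv l Ω

theorem homComp_mul_homogeneous {σ : Type*} {f g : MvPolynomial σ k} {m D : ℕ} (hg : g.IsHomogeneous m)
    (hD : m ≤ D) :
    homogeneousComponent D (f * g) = homogeneousComponent (D - m) f * g := by
  classical
  conv_lhs => rw [← sum_homogeneousComponent f, Finset.sum_mul, map_sum]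
  have key : ∀ i ∈ Finset.range (f.totalDegree + 1),
      homogeneousComponent D (homogeneousComponent i f * g) =
        if i = D - m then homogeneousComponent i f * g else 0 := by
    intro i _
    have h1 : (homogeneousComponent i f * g).IsHomogeneous (i + m) :=
      (homogeneousComponent_isHomogeneous i f).mul hg
    rw [homogeneousComponent_of_mem h1]
    by_cases h : i = D - m
    · rw [if_pos h, if_pos (by omega)]
    · rw [if_neg h, if_neg (by omega)]
  rw [Finset.sum_congr rfl key, Finset.sum_ite_eq' ]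
  split_ifs with h
  · rfl
  · rw [homogeneousComponent_eq_zero _ _ (by simp at h; omega), zero_mul]

theorem homComp_mul_small {σ : Type*} {f g : MvPolynomial σ k} {m D : ℕ} (hg : g.IsHomogeneous m)
    (hD : D < m) : homogeneousComponent D (f * g) = 0 := by
  classical
  conv_lhs => rw [← sum_homogeneousComponent f, Finset.sum_mul, map_sum]
  refine Finset.sum_eq_zero fun i _ => ?_
  have h1 : (homogeneousComponent i f * g).IsHomogeneous (i + m) :=
    (homogeneousComponent_isHomogeneous i f).mul hg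
  rw [homogeneousComponent_of_mem h1, if_neg (by omega)]

theorem powId_of_isPot {Ω : MvPolynomial (Fin 3) k} {n : ℕ} (hΩ : Ω.IsHomogeneous n)
    (hn : 1 ≤ n) (h : IsPot Ω) : PowId Ω n := by
  intro j
  set J := Ideal.span (Set.range fun j : Fin 3 => pderiv j Ω) with hJ
  have hfin : Module.Finite k (MvPolynomial (Fin 3) k ⧸ J) := h
  have hint : IsIntegral k (Ideal.Quotient.mk J (X j)) := Algebra.IsIntegral.isIntegral _
  obtain ⟨p, hpm, hp⟩ := hint
  have hp' : Polynomial.aeval (X j : MvPolynomial (Fin 3) k) p ∈ J := by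
    rw [← Ideal.Quotient.eq_zero_iff_mem]
    have e1 : (Ideal.Quotient.mk J) (Polynomial.aeval (X j : MvPolynomial (Fin 3) k) p)
        = Polynomial.aeval (Ideal.Quotient.mk J (X j)) p := by
      rw [← Ideal.Quotient.mkₐ_eq_mk k, ← Polynomial.aeval_algHom_apply]
    rw [e1]
    simpa [Polynomial.aeval_def] using hp
  have hpd : (X j : MvPolynomial (Fin 3) k) ^ n * Polynomial.aeval (X j) p ∈ J :=
    Ideal.mul_mem_left _ _ hp'
  rw [hJ, Ideal.span, Submodule.mem_span_range_iff_exists_fun] at hpd
  obtain ⟨c, hc⟩ := hpd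
  refine ⟨n + p.natDegree, by omega, fun l => homogeneousComponent (n + p.natDegree - (n - 1)) (c l),
    fun l => homogeneousComponent_isHomogeneous _ _, ?_⟩
  have hpder : ∀ l, (pderiv l Ω).IsHomogeneous (n - 1) := fun l => hΩ.pderiv
  have e2 := congrArg (homogeneousComponent (n + p.natDegree)) hc
  simp only [smul_eq_mul, map_sum] at e2
  have e3 : ∀ l, homogeneousComponent (n + p.natDegree) (c l * pderiv l Ω) =
      homogeneousComponent (n + p.natDegree - (n - 1)) (c l) * pderiv l Ω :=
    fun l => homComp_mul_homogeneous (hpder l) (by omega)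
  rw [Finset.sum_congr rfl fun l _ => e3 l] at e2
  rw [e2, Polynomial.aeval_eq_sum_range, Finset.mul_sum, map_sum]
  rw [Finset.sum_eq_single p.natDegree]
  · have hlc : p.coeff p.natDegree = 1 := hpm
    have h1 : ((X j : MvPolynomial (Fin 3) k) ^ n * (p.coeff p.natDegree • X j ^ p.natDegree))
        = X j ^ (n + p.natDegree) := by rw [hlc, one_smul, pow_add]
    rw [h1, homogeneousComponent_of_mem (isHomogeneous_X_pow j (n + p.natDegree)), if_pos rfl]
  · intro i _ hi
    have h1 : ((X j : MvPolynomial (Fin 3) k) ^ n * (p.coeff i • X j ^ i))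
        = p.coeff i • X j ^ (n + i) := by rw [pow_add, mul_smul_comm]
    rw [h1, map_smul, homogeneousComponent_of_mem (isHomogeneous_X_pow j (n + i)),
      if_neg (by omega), smul_zero]
  · intro hi
    simp at hi

theorem PowId.map {Ω : MvPolynomial (Fin 3) k} {n : ℕ} (h : PowId Ω n) {K : Type v} [Field K]
    (f : k →+* K) : PowId (MvPolynomial.map f Ω) n := by
  intro j
  obtain ⟨r, hr, g, hg, e⟩ := h j
  refine ⟨r, hr, fun l => MvPolynomial.map f (g l), fun l => (hg l).map f, ?_⟩
  have e1 := congrArg (MvPolynomial.map f) e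
  simp only [map_pow, map_X, map_sum, map_mul] at e1
  rw [e1]
  refine Finset.sum_congr rfl fun l _ => ?_
  rw [pderiv_map]

theorem squarefree_sub {Ω : MvPolynomial (Fin 3) k} {n : ℕ} (h : PowId Ω n) (ξ : k) :
    Squarefree (Ω - C ξ) := by
  intro f hf
  have hd : ∀ l, f ∣ pderiv l Ω := by
    intro l
    obtain ⟨q, hq⟩ := hf
    have h1 : pderiv l Ω = pderiv l (f * f * q) := by
      rw [← hq, map_sub, pderiv_C, sub_zero]
    rw [h1, Derivation.leibniz, Derivation.leibniz]
    simp only [smul_eq_mul]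
    refine dvd_add (by exact ⟨f * pderiv l q, by ring⟩) ?_
    exact ⟨q * (pderiv l f + pderiv l f), by ring⟩
  have hX : ∀ j : Fin 3, ∃ r : ℕ, f ∣ (X j : MvPolynomial (Fin 3) k) ^ r := by
    intro j
    obtain ⟨r, -, g, -, e⟩ := h j
    refine ⟨r, ?_⟩
    rw [e]
    exact Finset.dvd_sum fun l _ => Dvd.dvd.mul_left (hd l) _
  obtain ⟨a, ha⟩ := hX 0
  obtain ⟨b, hb⟩ := hX 1
  have hrel : IsRelPrime (X 0 : MvPolynomial (Fin 3) k) (X 1) := by
    have h0 : Prime (X 0 : MvPolynomial (Fin 3) k) := X_prime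
    have h1 : Prime (X 1 : MvPolynomial (Fin 3) k) := X_prime
    rw [h0.irreducible.isRelPrime_iff_not_dvd]
    intro hdv
    have := X_dvd_X.mp hdv
    simp at this
  exact hrel.pow ha hb

/-- polynomials none of whose monomials is above `μ` -/
def StdP (μ : Fin 3 →₀ ℕ) (F : MvPolynomial (Fin 3) k) : Prop := ∀ c ∈ F.support, ¬ μ ≤ c

theorem std_eq_zero_of_dvd {Φ F : MvPolynomial (Fin 3) k} (h0 : Φ ≠ 0)
    (hF : StdP (MonomialOrder.degLex.degree Φ) F) (hd : Φ ∣ F) : F = 0 := by
  obtain ⟨g, rfl⟩ := hd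
  by_cases hg : g = 0
  · rw [hg, mul_zero]
  exfalso
  have h1 := MonomialOrder.degree_mul (m := MonomialOrder.degLex) h0 hg
  have h2 : MonomialOrder.degLex.degree (Φ * g) ∈ (Φ * g).support :=
    MonomialOrder.degree_mem_support (mul_ne_zero h0 hg)
  exact hF _ h2 (by rw [h1]; exact le_self_add)

theorem std_eq_zero_of_vanish [IsAlgClosed k] {Φ F : MvPolynomial (Fin 3) k}
    (hsq : Squarefree Φ) (hF : StdP (MonomialOrder.degLex.degree Φ) F)
    (hz : ∀ p : Fin 3 → k, MvPolynomial.eval p Φ = 0 → MvPolynomial.eval p F = 0) : F = 0 := by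
  refine std_eq_zero_of_dvd hsq.ne_zero hF ?_
  have h1 : F ∈ (Ideal.span {Φ}).radical := by
    rw [← vanishingIdeal_zeroLocus_eq_radical (K := k)]
    rw [mem_vanishingIdeal_iff]
    intro p hp
    rw [mem_zeroLocus_iff] at hp
    have := hz p (by simpa [MvPolynomial.coe_aeval_eq_eval] using hp Φ (Ideal.mem_span_singleton_self Φ))
    simpa [MvPolynomial.coe_aeval_eq_eval] using this
  obtain ⟨m, hm⟩ := h1
  rw [Ideal.mem_span_singleton] at hm
  by_cases h0 : m = 0
  · subst h0
    rw [pow_zero] at hm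
    exact (isUnit_of_dvd_one hm).dvd
  · exact (hsq.dvd_pow_iff_dvd h0).mp hm

end Q20.Dix
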