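import Pool.Agent.Q20.Dix.Ten

/-! All scalar extensions of the tensor product are reduced. -/

open MvPolynomial Module PiTensorProduct TensorProduct

namespace Q20.Dix

universe u v w

variable {k : Type u} [Field k] {I : Type} [Fintype I] [DecidableEq I]

set_option linter.unusedSectionVars false

/-- evaluation of one factor at a point of its surface -/
noncomputable def evA (d : Dat k) {K : Type v} [Field K] [Algebra k K] (q : Fin 3 → K)
    (hq : aeval q d.Ω = algebraMap k K d.ξ) : A d.Ω d.ξ →ₐ[k] K :=
  liftA d.Ω d.ξ (aeval q) (by rw [map_sub, hq, aeval_C, sub_self])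

theorem evA_bas (d : Dat k) {K : Type v} [Field K] [Algebra k K] (q : Fin 3 → K)
    (hq : aeval q d.Ω = algebraMap k K d.ξ) (e : Std d.Ω) : evA d q hq (d.bas e) = mon q e.1 := by
  rw [d.bas_apply, evA, liftA_mk, aeval_monomial_one]

variable (D : I → Dat k)

/-- evaluation of the tensor product at a point of the product of the surfaces -/
noncomputable def evP {K : Type v} [Field K] [Algebra k K] (q : I → Fin 3 → K)
    (hq : ∀ i, aeval (q i) (D i).Ω = algebraMap k K (D i).ξ) : P D →ₐ[k] K :=
  liftAlgHom ((MultilinearMap.mkPiAlgebra k I K).compLinearMap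
    fun i => (evA (D i) (q i) (hq i)).toLinearMap)
    (by simp)
    (by intro x y; simp [Finset.prod_mul_distrib])

theorem evP_tprod {K : Type v} [Field K] [Algebra k K] (q : I → Fin 3 → K)
    (hq : ∀ i, aeval (q i) (D i).Ω = algebraMap k K (D i).ξ) (u : ∀ i, A (D i).Ω (D i).ξ) :
    evP D q hq (tprod k u) = ∏ i, evA (D i) (q i) (hq i) (u i) := by
  change (PiTensorProduct.lift ((MultilinearMap.mkPiAlgebra k I K).compLinearMap
    fun i => (evA (D i) (q i) (hq i)).toLinearMap)) (tprod k u) = _
  rw [PiTensorProduct.lift.tprod]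
  rfl

theorem evP_basP {K : Type v} [Field K] [Algebra k K] (q : I → Fin 3 → K)
    (hq : ∀ i, aeval (q i) (D i).Ω = algebraMap k K (D i).ξ) (γ : ∀ i, Std (D i).Ω) :
    evP D q hq (basP D γ) = ∏ i, mon (q i) (γ i).1 := by
  rw [basP_apply, evP_tprod]
  exact Finset.prod_congr rfl fun i _ => evA_bas _ _ _ _

theorem reduced (κ : Type v) [Field κ] [Algebra k κ] : IsReduced (κ ⊗[k] P D) := by
  classical
  let K := AlgebraicClosure κ
  constructor
  intro u hu
  set B := Algebra.TensorProduct.basis κ (basP D) with hB
  have key : (Finsupp.mapRange (algebraMap κ K) (map_zero _) (B.repr u)) = 0 := by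
    refine indep_prod (K := K) (B := fun i => Std (D i).Ω)
      (V := fun i => {x : Fin 3 → K // aeval x (D i).Ω = algebraMap k K (D i).ξ})
      (φ := fun i e q => mon q.1 e.1) (fun i => (D i).indep _) _ ?_
    intro q
    let E : κ ⊗[k] P D →ₐ[κ] K := Algebra.TensorProduct.lift (Algebra.ofId κ K)
      (evP D (fun i => (q i).1) (fun i => (q i).2)) (fun _ _ => Commute.all _ _)
    have h1 : E u = 0 := by
      exact (hu.map E).eq_zero
    rw [Finsupp.sum_mapRange_index (fun _ => zero_mul _), ← h1]
    conv_rhs => rw [← B.linearCombination_repr u, Finsupp.linearCombination_apply]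
    rw [Finsupp.sum, Finsupp.sum, map_sum]
    refine Finset.sum_congr rfl fun γ _ => ?_
    rw [map_smul, hB, Algebra.TensorProduct.basis_apply, Algebra.TensorProduct.lift_tmul, map_one,
      one_mul, evP_basP, Algebra.smul_def]
  have h3 : B.repr u = 0 := by
    ext γ
    have h4 := DFunLike.congr_fun key γ
    rw [Finsupp.mapRange_apply, Finsupp.zero_apply] at h4
    rw [Finsupp.zero_apply]
    exact (map_eq_zero _).mp h4
  exact (LinearEquiv.map_eq_zero_iff _).mp h3

end Q20.Dix
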