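import Pool.Agent.Q20.Dix.Pot

/-! The algebra of one factor, with its standard monomial basis. -/

open MvPolynomial Module

namespace Q20.Dix

universe u v

variable {k : Type u} [Field k]

/-- the commutative algebra `k[x,y,z]/(Ω - ξ)` -/
def A (Ω : MvPolynomial (Fin 3) k) (ξ : k) : Type u :=
  MvPolynomial (Fin 3) k ⧸ Ideal.span {Ω - C ξ}

noncomputable instance (Ω : MvPolynomial (Fin 3) k) (ξ : k) : CommRing (A Ω ξ) :=
  inferInstanceAs (CommRing (MvPolynomial (Fin 3) k ⧸ Ideal.span {Ω - C ξ}))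

noncomputable instance (Ω : MvPolynomial (Fin 3) k) (ξ : k) : Algebra k (A Ω ξ) :=
  inferInstanceAs (Algebra k (MvPolynomial (Fin 3) k ⧸ Ideal.span {Ω - C ξ}))

/-- class of a polynomial -/
noncomputable def mkA (Ω : MvPolynomial (Fin 3) k) (ξ : k) :
    MvPolynomial (Fin 3) k →ₐ[k] A Ω ξ :=
  Ideal.Quotient.mkₐ k (Ideal.span {Ω - C ξ})

theorem mkA_eq_iff (Ω : MvPolynomial (Fin 3) k) (ξ : k) (f g : MvPolynomial (Fin 3) k) :
    mkA Ω ξ f = mkA Ω ξ g ↔ (Ω - C ξ) ∣ f - g := by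
  rw [← Ideal.mem_span_singleton]
  exact Ideal.Quotient.eq

theorem mkA_surj (Ω : MvPolynomial (Fin 3) k) (ξ : k) (u : A Ω ξ) : ∃ f, mkA Ω ξ f = u :=
  Ideal.Quotient.mk_surjective u

/-- extension of algebra maps from the polynomial ring to the quotient -/
noncomputable def liftA (Ω : MvPolynomial (Fin 3) k) (ξ : k) {S : Type v} [CommRing S] [Algebra k S]
    (f : MvPolynomial (Fin 3) k →ₐ[k] S) (hf : f (Ω - C ξ) = 0) : A Ω ξ →ₐ[k] S :=
  Ideal.Quotient.liftₐ (Ideal.span {Ω - C ξ}) f (fun a ha => by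
    rw [Ideal.mem_span_singleton] at ha
    obtain ⟨c, rfl⟩ := ha
    rw [map_mul, hf, zero_mul])

theorem liftA_mk (Ω : MvPolynomial (Fin 3) k) (ξ : k) {S : Type v} [CommRing S] [Algebra k S]
    (f : MvPolynomial (Fin 3) k →ₐ[k] S) (hf : f (Ω - C ξ) = 0) (a : MvPolynomial (Fin 3) k) :
    liftA Ω ξ f hf (mkA Ω ξ a) = f a := rfl

/-- leading exponent of `Ω` -/
noncomputable abbrev lex (Ω : MvPolynomial (Fin 3) k) : Fin 3 →₀ ℕ :=
  MonomialOrder.degLex.degree Ω

/-- standard exponents -/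
def Std (Ω : MvPolynomial (Fin 3) k) : Type := {e : Fin 3 →₀ ℕ // ¬ lex Ω ≤ e}

/-- degree of an exponent -/
noncomputable def wt {Ω : MvPolynomial (Fin 3) k} (e : Std Ω) : ℕ := e.1.degree

theorem ne_zero_of_powId {Ω : MvPolynomial (Fin 3) k} {n : ℕ} (h : PowId Ω n) : Ω ≠ 0 := by
  rintro rfl
  obtain ⟨r, -, g, -, e⟩ := h 0
  simp at e

theorem degree_lt {Ω : MvPolynomial (Fin 3) k} {n : ℕ} (hΩ : Ω.IsHomogeneous n) (hn : 1 ≤ n)
    (h0 : Ω ≠ 0) (ξ : k) :
    MonomialOrder.degLex.toSyn (MonomialOrder.degLex.degree (C ξ : MvPolynomial (Fin 3) k)) <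
      MonomialOrder.degLex.toSyn (MonomialOrder.degLex.degree Ω) := by
  rw [MonomialOrder.degree_C, map_zero]
  have h1 : MonomialOrder.degLex.degree Ω ≠ 0 := by
    intro h
    have h2 := degree_degLexDegree (f := Ω)
    rw [h, hΩ.totalDegree h0] at h2
    simp at h2
    omega
  rw [MonomialOrder.toSyn_lt_iff_ne_zero]
  simpa using h1

theorem lex_sub {Ω : MvPolynomial (Fin 3) k} {n : ℕ} (hΩ : Ω.IsHomogeneous n) (hn : 1 ≤ n)
    (h0 : Ω ≠ 0) (ξ : k) : lex (Ω - C ξ) = lex Ω :=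
  MonomialOrder.degree_sub_of_lt (degree_lt hΩ hn h0 ξ)

/-- data of one factor -/
structure Dat (k : Type u) [Field k] where
  Ω : MvPolynomial (Fin 3) k
  ξ : k
  n : ℕ
  hn : 4 ≤ n
  hom : Ω.IsHomogeneous n
  pid : PowId Ω n

namespace Dat

variable (d : Dat k)

theorem ne0 : d.Ω ≠ 0 := ne_zero_of_powId d.pid

theorem lex_eq (ξ : k) : lex (d.Ω - C ξ) = lex d.Ω :=
  lex_sub d.hom (by have := d.hn; omega) d.ne0 ξ

theorem sub_ne (ξ : k) : d.Ω - C ξ ≠ 0 := (squarefree_sub d.pid ξ).ne_zero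

/-- every polynomial has a standard normal form -/
theorem nf (f : MvPolynomial (Fin 3) k) : ∃ g r : MvPolynomial (Fin 3) k,
    f = g * (d.Ω - C d.ξ) + r ∧ StdP (lex d.Ω) r ∧
      ((d.Ω - C d.ξ) * g).totalDegree ≤ f.totalDegree := by
  have h0 := d.sub_ne d.ξ
  have hu : IsUnit (MonomialOrder.degLex.leadingCoeff (d.Ω - C d.ξ)) :=
    isUnit_iff_ne_zero.mpr (MonomialOrder.leadingCoeff_ne_zero_iff.mpr h0)
  obtain ⟨g, r, h1, h2, h3⟩ := MonomialOrder.div_single hu f
  refine ⟨g, r, h1, ?_, degLex_totalDegree_monotone h2⟩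
  intro c hc
  have := h3 c hc
  rwa [show MonomialOrder.degLex.degree (d.Ω - C d.ξ) = lex d.Ω from d.lex_eq d.ξ] at this

theorem mk_eq_zero (f : MvPolynomial (Fin 3) k) : mkA d.Ω d.ξ f = 0 ↔ (d.Ω - C d.ξ) ∣ f := by
  rw [← map_zero (mkA d.Ω d.ξ), mkA_eq_iff, sub_zero]

theorem coeff_lc (l : Std d.Ω →₀ k) (e : Std d.Ω) :
    coeff e.1 (Finsupp.linearCombination k (fun e : Std d.Ω => (monomial e.1 (1 : k))) l) = l e := by
  classical
  rw [Finsupp.linearCombination_apply, Finsupp.sum, coeff_sum]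
  have : ∀ i ∈ l.support, coeff e.1 (l i • (monomial i.1 (1 : k))) = if i = e then l i else 0 := by
    intro i _
    rw [coeff_smul, coeff_monomial]
    by_cases h : i = e
    · subst h; simp
    · rw [if_neg h, if_neg (fun h' => h (Subtype.ext h')), smul_zero]
  rw [Finset.sum_congr rfl this, Finset.sum_ite_eq']
  split_ifs with h
  · rfl
  · rw [Finsupp.notMem_support_iff] at h
    exact h.symm

theorem stdP_lc (l : Std d.Ω →₀ k) :
    StdP (lex d.Ω) (Finsupp.linearCombination k (fun e : Std d.Ω => (monomial e.1 (1 : k))) l) := by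
  classical
  intro c hc hle
  rw [MvPolynomial.mem_support_iff] at hc
  apply hc
  rw [Finsupp.linearCombination_apply, Finsupp.sum, coeff_sum]
  refine Finset.sum_eq_zero fun i _ => ?_
  rw [coeff_smul, coeff_monomial, if_neg, smul_zero]
  rintro rfl
  exact i.2 hle

theorem linInd : LinearIndependent k (fun e : Std d.Ω => mkA d.Ω d.ξ (monomial e.1 (1 : k))) := by
  rw [linearIndependent_iff]
  intro l hl
  set F := Finsupp.linearCombination k (fun e : Std d.Ω => (monomial e.1 (1 : k))) l with hF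
  have h1 : mkA d.Ω d.ξ F = 0 := by
    rw [← hl, hF, Finsupp.linearCombination_apply, Finsupp.linearCombination_apply]
    simp only [Finsupp.sum, map_sum, map_smul]
  rw [mk_eq_zero] at h1
  have h2 : F = 0 := by
    refine std_eq_zero_of_dvd (d.sub_ne d.ξ) ?_ h1
    have h3 := d.stdP_lc l
    rw [← hF] at h3
    have h4 : MonomialOrder.degLex.degree (d.Ω - C d.ξ) = lex d.Ω := d.lex_eq d.ξ
    rw [h4]
    exact h3
  ext e
  have := d.coeff_lc l e
  rw [← hF, h2] at this
  simpa using this.symm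

theorem sum_std {r : MvPolynomial (Fin 3) k} :
    mkA d.Ω d.ξ r = ∑ c ∈ r.support, coeff c r • mkA d.Ω d.ξ (monomial c (1 : k)) := by
  conv_lhs => rw [r.as_sum, map_sum]
  refine Finset.sum_congr rfl fun c _ => ?_
  rw [← map_smul, smul_monomial, smul_eq_mul, mul_one]

theorem spanTop : ⊤ ≤ Submodule.span k
    (Set.range fun e : Std d.Ω => mkA d.Ω d.ξ (monomial e.1 (1 : k))) := by
  rintro a -
  obtain ⟨f, rfl⟩ := mkA_surj _ _ a
  obtain ⟨g, r, h1, h2, -⟩ := d.nf f
  have h3 : mkA d.Ω d.ξ f = mkA d.Ω d.ξ r := by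
    rw [h1, map_add, map_mul, (d.mk_eq_zero (d.Ω - C d.ξ)).mpr dvd_rfl, mul_zero, zero_add]
  rw [h3, sum_std]
  refine Submodule.sum_mem _ fun c hc => Submodule.smul_mem _ _ (Submodule.subset_span ?_)
  exact ⟨⟨c, h2 c hc⟩, rfl⟩

/-- the standard monomial basis -/
noncomputable def bas : Basis (Std d.Ω) k (A d.Ω d.ξ) := Basis.mk d.linInd d.spanTop

theorem bas_apply (e : Std d.Ω) : d.bas e = mkA d.Ω d.ξ (monomial e.1 (1 : k)) := by
  rw [bas, Basis.mk_apply]

theorem repr_std {r : MvPolynomial (Fin 3) k} (hr : StdP (lex d.Ω) r) (e : Std d.Ω) :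
    d.bas.repr (mkA d.Ω d.ξ r) e = coeff e.1 r := by
  classical
  have key : ∀ c ∈ r.support, d.bas.coord e (coeff c r • mkA d.Ω d.ξ (monomial c (1 : k))) =
      if c = e.1 then coeff c r else 0 := by
    intro c hc
    let e0 : Std d.Ω := ⟨c, hr c hc⟩
    have h1 : mkA d.Ω d.ξ (monomial c (1 : k)) = d.bas e0 := (d.bas_apply e0).symm
    rw [h1, map_smul, Basis.coord_apply, Basis.repr_self, Finsupp.single_apply]
    by_cases h : c = e.1
    · have h2 : e0 = e := Subtype.ext h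
      rw [if_pos h, if_pos h2, smul_eq_mul, mul_one]
    · have h2 : e0 ≠ e := fun h' => h (congrArg Subtype.val h')
      rw [if_neg h, if_neg h2, smul_zero]
  rw [← Basis.coord_apply, sum_std, map_sum, Finset.sum_congr rfl key, Finset.sum_ite_eq']
  split_ifs with h
  · rfl
  · rw [MvPolynomial.notMem_support_iff] at h
    exact h.symm

/-- normal form with degree control -/
theorem nf' (f : MvPolynomial (Fin 3) k) (e : ℕ) (hf : f.totalDegree ≤ e) :
    ∃ r : MvPolynomial (Fin 3) k, StdP (lex d.Ω) r ∧ mkA d.Ω d.ξ f = mkA d.Ω d.ξ r ∧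
      r.totalDegree ≤ e ∧ ∃ q, homogeneousComponent e f = q * d.Ω + homogeneousComponent e r := by
  obtain ⟨g, r, h1, h2, h3⟩ := d.nf f
  have h4 : r.totalDegree ≤ e := by
    have : r = f - (d.Ω - C d.ξ) * g := by rw [h1]; ring
    rw [this]
    exact (totalDegree_sub _ _).trans (max_le hf (h3.trans hf))
  refine ⟨r, h2, ?_, h4, ?_⟩
  · rw [h1, map_add, map_mul, (d.mk_eq_zero (d.Ω - C d.ξ)).mpr dvd_rfl, mul_zero, zero_add]
  · by_cases hg : g = 0
    · refine ⟨0, ?_⟩
      rw [h1, hg]; simp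
    have hdeg : (d.Ω - C d.ξ).totalDegree = d.n := by
      rw [← degree_degLexDegree]
      have := d.lex_eq d.ξ
      change (lex (d.Ω - C d.ξ)).degree = _
      rw [this, degree_degLexDegree, d.hom.totalDegree d.ne0]
    have h5 : d.n + g.totalDegree ≤ e := by
      rw [totalDegree_mul_of_isDomain (d.sub_ne d.ξ) hg, hdeg] at h3
      omega
    have hn := d.hn
    refine ⟨homogeneousComponent (e - d.n) g, ?_⟩
    rw [h1, map_add, mul_sub, map_sub, homComp_mul_homogeneous d.hom (by omega)]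
    have h6 : homogeneousComponent e (g * C d.ξ) = 0 := by
      apply homogeneousComponent_eq_zero
      calc (g * C d.ξ).totalDegree ≤ g.totalDegree + (C d.ξ : MvPolynomial (Fin 3) k).totalDegree :=
            totalDegree_mul _ _
        _ = g.totalDegree := by rw [totalDegree_C, add_zero]
        _ < e := by omega
    rw [h6, sub_zero]

end Dat

end Q20.Dix
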