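import Pool.Agent.Q20.Dix.Main

/-! The definitions used in the final statement, in a form with short terms. -/

open MvPolynomial Module PiTensorProduct TensorProduct

namespace Q20.Dix

universe u

variable {k : Type u} [Field k]

/-- the Jacobian ideal, generated by the three partial derivatives -/
noncomputable def jacIdeal (Ω : MvPolynomial (Fin 3) k) : Ideal (MvPolynomial (Fin 3) k) :=
  Ideal.span (Set.range fun j : Fin 3 => pderiv j Ω)

/-- `Ω` is an isolated singularity potential: the quotient of `k[x,y,z]` by the Jacobian ideal is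
finite dimensional over `k` -/
def IsIsolated (Ω : MvPolynomial (Fin 3) k) : Prop :=
  Module.Finite k (MvPolynomial (Fin 3) k ⧸ jacIdeal Ω)

/-- the determinant whose rows are the gradients of three polynomials -/
noncomputable def jacDet (f g h : MvPolynomial (Fin 3) k) : MvPolynomial (Fin 3) k :=
  Matrix.det (Matrix.of fun a j : Fin 3 => pderiv j (![f, g, h] a))

/-- the ideal generated by `Ω - ξ` -/
noncomputable def potIdeal (Ω : MvPolynomial (Fin 3) k) (ξ : k) : Ideal (MvPolynomial (Fin 3) k) :=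
  Ideal.span {Ω - C ξ}

/-- the commutative algebra `k[x,y,z]/(Ω - ξ)` -/
def PQ (Ω : MvPolynomial (Fin 3) k) (ξ : k) : Type u := MvPolynomial (Fin 3) k ⧸ potIdeal Ω ξ

noncomputable instance instRingPQ (Ω : MvPolynomial (Fin 3) k) (ξ : k) : CommRing (PQ Ω ξ) :=
  Ideal.Quotient.commRing (potIdeal Ω ξ)

noncomputable instance instAlgPQ (Ω : MvPolynomial (Fin 3) k) (ξ : k) : Algebra k (PQ Ω ξ) :=
  Ideal.Quotient.algebra k (I := potIdeal Ω ξ)

/-- the class of a polynomial in `k[x,y,z]/(Ω - ξ)` -/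
noncomputable def cls (Ω : MvPolynomial (Fin 3) k) (ξ : k) (f : MvPolynomial (Fin 3) k) : PQ Ω ξ :=
  Ideal.Quotient.mk (potIdeal Ω ξ) f

variable {I : Type}

/-- the tensor product over `k` of the algebras `k[x,y,z]/(Ω_i - ξ_i)` -/
def TP (Ω : I → MvPolynomial (Fin 3) k) (ξ : I → k) : Type u := ⨂[k] i, PQ (Ω i) (ξ i)

noncomputable instance instRingTP (Ω : I → MvPolynomial (Fin 3) k) (ξ : I → k) :
    CommRing (TP Ω ξ) :=
  PiTensorProduct.instCommRing (A := fun i => PQ (Ω i) (ξ i))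

noncomputable instance instAlgTP (Ω : I → MvPolynomial (Fin 3) k) (ξ : I → k) :
    Algebra k (TP Ω ξ) :=
  PiTensorProduct.instAlgebra (A := fun i => PQ (Ω i) (ξ i))

/-- pure tensors -/
noncomputable def pure (Ω : I → MvPolynomial (Fin 3) k) (ξ : I → k) (a : ∀ i, PQ (Ω i) (ξ i)) :
    TP Ω ξ :=
  PiTensorProduct.tprod k a

/-- `B` is the Poisson bracket of the tensor product: it is `k`-bilinear, and on pure tensors of
classes of polynomials `f_i`, `g_i` it is `∑_i {f_i, g_i} ⊗ ⨂_{j ≠ i} f_j g_j`, where `{f_i, g_i}`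
is the class of the determinant `jacDet (f_i) (g_i) (Ω_i)` with rows the three gradients -/
structure IsBracket [Fintype I] [DecidableEq I] (Ω : I → MvPolynomial (Fin 3) k) (ξ : I → k)
    (B : TP Ω ξ → TP Ω ξ → TP Ω ξ) : Prop where
  add_left : ∀ x y z, B (x + y) z = B x z + B y z
  add_right : ∀ x y z, B x (y + z) = B x y + B x z
  smul_left : ∀ (c : k) x y, B (c • x) y = c • B x y
  smul_right : ∀ (c : k) x y, B x (c • y) = c • B x y
  pure_pure : ∀ f g : I → MvPolynomial (Fin 3) k,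
    B (pure Ω ξ fun i => cls (Ω i) (ξ i) (f i)) (pure Ω ξ fun i => cls (Ω i) (ξ i) (g i)) =
      ∑ i, pure Ω ξ fun j => cls (Ω j) (ξ j) (if j = i then jacDet (f j) (g j) (Ω j) else f j * g j)

/-- `φ` preserves `B` -/
def Preserves {Ω : I → MvPolynomial (Fin 3) k} {ξ : I → k} (B : TP Ω ξ → TP Ω ξ → TP Ω ξ)
    (φ : TP Ω ξ → TP Ω ξ) : Prop :=
  ∀ a b, φ (B a b) = B (φ a) (φ b)

theorem tbr_formula [Fintype I] [DecidableEq I] (Ω : I → MvPolynomial (Fin 3) k) (ξ : I → k)
    (f g : I → MvPolynomial (Fin 3) k) :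
    tbr Ω ξ (tprod k fun i => mkA (Ω i) (ξ i) (f i)) (tprod k fun i => mkA (Ω i) (ξ i) (g i)) =
      ∑ i, tprod k fun j => mkA (Ω j) (ξ j)
        (if j = i then jac (f j) (g j) (Ω j) else f j * g j) := by
  rw [tbr_tprod]
  refine Finset.sum_congr rfl fun i _ => ?_
  congr 1
  funext j
  by_cases h : j = i
  · subst h
    rw [Function.update_self, if_pos rfl, br_mk]
  · rw [Function.update_of_ne h, if_neg h, map_mul]

theorem tbr_isBracket [Fintype I] [DecidableEq I] (Ω : I → MvPolynomial (Fin 3) k) (ξ : I → k) :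
    IsBracket Ω ξ (fun x y => (tbr Ω ξ x y : PT Ω ξ)) where
  add_left x y z := LinearMap.map_add₂ (tbr Ω ξ) x y z
  add_right x y z := map_add (tbr Ω ξ x) y z
  smul_left c x y := LinearMap.map_smul₂ (tbr Ω ξ) c x y
  smul_right c x y := map_smul (tbr Ω ξ x) c y
  pure_pure f g := tbr_formula Ω ξ f g

theorem isBracket_eq [Fintype I] [DecidableEq I] {Ω : I → MvPolynomial (Fin 3) k} {ξ : I → k}
    {B : TP Ω ξ → TP Ω ξ → TP Ω ξ} (hB : IsBracket Ω ξ B) :
    B = (fun x y => (tbr Ω ξ x y : PT Ω ξ)) := by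
  have hs : ∀ (c : k) (a : ∀ i, PQ (Ω i) (ξ i)), ∃ f : I → MvPolynomial (Fin 3) k,
      a = fun i => cls (Ω i) (ξ i) (f i) := by
    intro _ a
    choose f hf using fun i => Ideal.Quotient.mk_surjective (I := potIdeal (Ω i) (ξ i)) (a i)
    exact ⟨f, funext fun i => (hf i).symm⟩
  have h1 : ∀ f g : I → MvPolynomial (Fin 3) k,
      B (pure Ω ξ fun i => cls (Ω i) (ξ i) (f i)) (pure Ω ξ fun i => cls (Ω i) (ξ i) (g i)) =
      (fun x y => (tbr Ω ξ x y : PT Ω ξ)) (pure Ω ξ fun i => cls (Ω i) (ξ i) (f i))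
        (pure Ω ξ fun i => cls (Ω i) (ξ i) (g i)) := fun f g =>
    (hB.pure_pure f g).trans ((tbr_isBracket Ω ξ).pure_pure f g).symm
  funext x y
  refine PiTensorProduct.induction_on (R := k) (s := fun i => PQ (Ω i) (ξ i))
    (motive := fun x => B x y = (fun x y => (tbr Ω ξ x y : PT Ω ξ)) x y) x ?_ ?_
  · intro c a
    obtain ⟨f, rfl⟩ := hs c a
    refine (hB.smul_left c _ y).trans (Eq.trans ?_ ((tbr_isBracket Ω ξ).smul_left c _ y).symm)
    refine congrArg (c • ·) ?_
    refine PiTensorProduct.induction_on (R := k) (s := fun i => PQ (Ω i) (ξ i))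
      (motive := fun y => B (pure Ω ξ fun i => cls (Ω i) (ξ i) (f i)) y =
        (fun x y => (tbr Ω ξ x y : PT Ω ξ)) (pure Ω ξ fun i => cls (Ω i) (ξ i) (f i)) y) y ?_ ?_
    · intro c' a'
      obtain ⟨g, rfl⟩ := hs c' a'
      refine (hB.smul_right c' _ _).trans
        (Eq.trans ?_ ((tbr_isBracket Ω ξ).smul_right c' _ _).symm)
      exact congrArg (c' • ·) (h1 f g)
    · intro y y' h h'
      exact (hB.add_right _ y y').trans
        ((congrArg₂ (· + ·) h h').trans ((tbr_isBracket Ω ξ).add_right _ y y').symm)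
  · intro x x' h h'
    exact (hB.add_left x x' y).trans
      ((congrArg₂ (· + ·) h h').trans ((tbr_isBracket Ω ξ).add_left x x' y).symm)

theorem final [Fintype I] [DecidableEq I] (Ω : I → MvPolynomial (Fin 3) k) (n : I → ℕ)
    (hn : ∀ i, 4 ≤ n i) (hΩ : ∀ i, (Ω i).IsHomogeneous (n i)) (hpot : ∀ i, IsIsolated (Ω i))
    (ξ : I → k) :
    (∃! B : TP Ω ξ → TP Ω ξ → TP Ω ξ, IsBracket Ω ξ B) ∧
    ∀ B : TP Ω ξ → TP Ω ξ → TP Ω ξ, IsBracket Ω ξ B →
      (∀ φ : TP Ω ξ →ₐ[k] TP Ω ξ, Preserves B φ → Function.Injective φ → Function.Bijective φ) ∧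
      {φ : TP Ω ξ ≃ₐ[k] TP Ω ξ | Preserves B φ}.Finite ∧
      {φ : TP Ω ξ →ₐ[k] TP Ω ξ | Preserves B φ}.Finite := by
  refine ⟨⟨_, tbr_isBracket Ω ξ, fun B hB => isBracket_eq hB⟩, fun B hB => ?_⟩
  rw [isBracket_eq hB]
  exact main_all Ω n hn hΩ hpot ξ

end Q20.Dix
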