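import Pool.Agent.Q20.Dix.Ind

/-! The tensor product of the factors: basis, filtration, symbols, bracket. -/

open MvPolynomial Module PiTensorProduct TensorProduct

namespace Q20.Dix

universe u v w

variable {k : Type u} [Field k] {I : Type} [Fintype I] [DecidableEq I]

/-- the tensor product over `k` of the algebras `k[x,y,z]/(Ω_i - ξ_i)` -/
abbrev PT (Ω : I → MvPolynomial (Fin 3) k) (ξ : I → k) : Type u := ⨂[k] i, A (Ω i) (ξ i)

/-- the Poisson bracket of the tensor product: on pure tensors it is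
`∑_i {a_i, b_i} ⊗ ⨂_{j ≠ i} a_j b_j` -/
noncomputable def tbr (Ω : I → MvPolynomial (Fin 3) k) (ξ : I → k) :
    PT Ω ξ →ₗ[k] PT Ω ξ →ₗ[k] PT Ω ξ :=
  ∑ i, PiTensorProduct.map₂
    (Function.update (fun j => LinearMap.mul k (A (Ω j) (ξ j))) i (br (Ω i) (ξ i)))

theorem tbr_tprod (Ω : I → MvPolynomial (Fin 3) k) (ξ : I → k) (a b : ∀ i, A (Ω i) (ξ i)) :
    tbr Ω ξ (tprod k a) (tprod k b) =
      ∑ i, tprod k (Function.update (fun j => a j * b j) i (br (Ω i) (ξ i) (a i) (b i))) := by
  rw [tbr, LinearMap.sum_apply, LinearMap.sum_apply]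
  refine Finset.sum_congr rfl fun i _ => ?_
  rw [PiTensorProduct.map₂_tprod_tprod]
  congr 1
  funext j
  by_cases h : j = i
  · subst h; simp
  · simp [Function.update_of_ne h]

/-- the tensor product attached to a family of data -/
abbrev P (D : I → Dat k) : Type u := PT (fun i => (D i).Ω) (fun i => (D i).ξ)

variable (D : I → Dat k)

set_option linter.unusedSectionVars false

/-- the monomial basis of the tensor product -/
noncomputable def basP : Basis (∀ i, Std (D i).Ω) k (P D) :=
  Basis.piTensorProduct fun i => (D i).bas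

/-- total degree of an index -/
noncomputable def wtP (γ : ∀ i, Std (D i).Ω) : ℕ := ∑ i, wt (γ i)

theorem basP_apply (γ : ∀ i, Std (D i).Ω) : basP D γ = tprod k fun i => (D i).bas (γ i) := by
  rw [basP, Basis.piTensorProduct_apply]

theorem basP_repr (u : ∀ i, A (D i).Ω (D i).ξ) (γ : ∀ i, Std (D i).Ω) :
    (basP D).repr (tprod k u) γ = ∏ i, (D i).bas.repr (u i) (γ i) := by
  rw [basP, Basis.piTensorProduct_repr_tprod_apply]

theorem finite_le (c : ℕ) : {γ : ∀ i, Std (D i).Ω | wtP D γ ≤ c}.Finite := by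
  have h1 : {e : Fin 3 →₀ ℕ | e.degree ≤ c}.Finite := by
    refine (Set.finite_Iic (Finsupp.equivFunOnFinite.symm fun _ : Fin 3 => c)).subset ?_
    intro e he
    rw [Set.mem_Iic]
    intro j
    exact (Finsupp.le_degree j e).trans he
  have h2 : ∀ i : I, {e : Std (D i).Ω | wt e ≤ c}.Finite := fun i =>
    Set.Finite.preimage (Subtype.val_injective.injOn) h1
  refine (Set.Finite.pi' h2).subset ?_
  intro γ hγ i
  exact (Finset.single_le_sum (fun j _ => Nat.zero_le (wt (γ j))) (Finset.mem_univ i)).trans hγ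

theorem tprod_mem {u : ∀ i, A (D i).Ω (D i).ξ} {e : I → ℕ}
    (hu : ∀ i, u i ∈ Fil (D i).bas wt (e i)) : tprod k u ∈ Fil (basP D) (wtP D) (∑ i, e i) := by
  intro γ hγ
  rw [basP_repr] at hγ
  exact Finset.sum_le_sum fun i _ => hu i (γ i) (Finset.prod_ne_zero_iff.mp hγ i (Finset.mem_univ i))

theorem basP_mul (γ γ' : ∀ i, Std (D i).Ω) : basP D γ * basP D γ' =
    tprod k fun i => (D i).bas (γ i) * (D i).bas (γ' i) := by
  rw [basP_apply, basP_apply, tprod_mul_tprod]
  rfl

theorem mul_mem_Fil {a b : ℕ} {x y : P D} (hx : x ∈ Fil (basP D) (wtP D) a)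
    (hy : y ∈ Fil (basP D) (wtP D) b) : x * y ∈ Fil (basP D) (wtP D) (a + b) := by
  revert y
  refine Fil_induction (basP D) (wtP D) (p := fun x => ∀ {y : P D},
    y ∈ Fil (basP D) (wtP D) b → x * y ∈ Fil (basP D) (wtP D) (a + b)) ?_ ?_ ?_ ?_ x hx
  · intro y _; rw [zero_mul]; exact Submodule.zero_mem _
  · intro x x' h h' y hy; rw [add_mul]; exact Submodule.add_mem _ (h hy) (h' hy)
  · intro c x h y hy; rw [smul_mul_assoc]; exact Submodule.smul_mem _ _ (h hy)
  · intro γ hγ y hy
    refine Fil_induction (basP D) (wtP D) (p := fun y =>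
      basP D γ * y ∈ Fil (basP D) (wtP D) (a + b)) ?_ ?_ ?_ ?_ y hy
    · rw [mul_zero]; exact Submodule.zero_mem _
    · intro y y' h h'; rw [mul_add]; exact Submodule.add_mem _ h h'
    · intro c y h; rw [mul_smul_comm]; exact Submodule.smul_mem _ _ h
    · intro γ' hγ'
      rw [basP_mul]
      have h1 := tprod_mem D (u := fun i => (D i).bas (γ i) * (D i).bas (γ' i))
        (e := fun i => wt (γ i) + wt (γ' i)) (fun i => (D i).bas_mul_mem _ _)
      refine Fil_mono _ _ ?_ h1
      rw [Finset.sum_add_distrib]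
      exact add_le_add hγ hγ'

theorem one_mem_Fil : (1 : P D) ∈ Fil (basP D) (wtP D) 0 := by
  have h1 := tprod_mem D (u := fun _ => 1) (e := fun _ => 0) (fun i => by
    rw [← map_one (mkA (D i).Ω (D i).ξ)]
    exact (D i).mk_mem_Fil (by rw [totalDegree_one]))
  rw [Finset.sum_const_zero] at h1
  exact h1

theorem pow_mem_Fil {a : ℕ} {x : P D} (hx : x ∈ Fil (basP D) (wtP D) a) (r : ℕ) :
    x ^ r ∈ Fil (basP D) (wtP D) (r * a) := by
  induction r with
  | zero => rw [pow_zero, Nat.zero_mul]; exact one_mem_Fil D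
  | succ r ih =>
    rw [pow_succ, Nat.succ_mul]
    exact mul_mem_Fil D ih hx

theorem tbr_mem_Fil {a b : ℕ} {x y : P D} (hx : x ∈ Fil (basP D) (wtP D) a)
    (hy : y ∈ Fil (basP D) (wtP D) b) :
    tbr (fun i => (D i).Ω) (fun i => (D i).ξ) x y ∈
      Fil (basP D) (wtP D) (a + b + ∑ i, (D i).n) := by
  revert y
  refine Fil_induction (basP D) (wtP D) (p := fun x => ∀ {y : P D},
    y ∈ Fil (basP D) (wtP D) b → tbr (fun i => (D i).Ω) (fun i => (D i).ξ) x y ∈
      Fil (basP D) (wtP D) (a + b + ∑ i, (D i).n)) ?_ ?_ ?_ ?_ x hx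
  · intro y _; rw [map_zero, LinearMap.zero_apply]; exact Submodule.zero_mem _
  · intro x x' h h' y hy
    rw [map_add, LinearMap.add_apply]; exact Submodule.add_mem _ (h hy) (h' hy)
  · intro c x h y hy
    rw [map_smul, LinearMap.smul_apply]; exact Submodule.smul_mem _ _ (h hy)
  · intro γ hγ y hy
    refine Fil_induction (basP D) (wtP D) (p := fun y =>
      tbr (fun i => (D i).Ω) (fun i => (D i).ξ) (basP D γ) y ∈
        Fil (basP D) (wtP D) (a + b + ∑ i, (D i).n)) ?_ ?_ ?_ ?_ y hy
    · rw [map_zero]; exact Submodule.zero_mem _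
    · intro y y' h h'; rw [map_add]; exact Submodule.add_mem _ h h'
    · intro c y h; rw [map_smul]; exact Submodule.smul_mem _ _ h
    · intro γ' hγ'
      rw [basP_apply, basP_apply, tbr_tprod]
      refine Submodule.sum_mem _ fun i _ => ?_
      have h1 := tprod_mem D
        (u := Function.update (fun j => (D j).bas (γ j) * (D j).bas (γ' j)) i
          (br (D i).Ω (D i).ξ ((D i).bas (γ i)) ((D i).bas (γ' i))))
        (e := fun j => wt (γ j) + wt (γ' j) + (D j).n) (by
          intro j
          by_cases h : j = i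
          · subst h
            rw [Function.update_self]
            exact (D j).br_mem _ _
          · rw [Function.update_of_ne h]
            exact Fil_mono _ _ (Nat.le_add_right _ _) ((D j).bas_mul_mem _ _))
      refine Fil_mono _ _ ?_ h1
      rw [Finset.sum_add_distrib, Finset.sum_add_distrib]
      exact Nat.add_le_add_right (add_le_add hγ hγ') _

section sym

variable {K : Type v} [Field K] [Algebra k K]

/-- the symbol functional of a family of points -/
noncomputable def symP (p : I → Fin 3 → K) : P D →ₗ[k] Polynomial K :=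
  PiTensorProduct.lift ((MultilinearMap.mkPiAlgebra k I (Polynomial K)).compLinearMap
    fun i => (D i).sym (p i))

theorem symP_tprod (p : I → Fin 3 → K) (u : ∀ i, A (D i).Ω (D i).ξ) :
    symP D p (tprod k u) = ∏ i, (D i).sym (p i) (u i) := by
  rw [symP, PiTensorProduct.lift.tprod]
  simp

omit [Algebra k K] in
theorem prod_monomial {ι : Type*} (s : Finset ι) (a : ι → ℕ) (b : ι → K) :
    ∏ i ∈ s, Polynomial.monomial (a i) (b i) = Polynomial.monomial (∑ i ∈ s, a i) (∏ i ∈ s, b i) := by
  classical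
  induction s using Finset.induction_on with
  | empty => simp
  | insert i s hi ih =>
    rw [Finset.prod_insert hi, Finset.prod_insert hi, Finset.sum_insert hi, ih,
      Polynomial.monomial_mul_monomial]

theorem symP_basP (p : I → Fin 3 → K) (γ : ∀ i, Std (D i).Ω) :
    symP D p (basP D γ) = Polynomial.monomial (wtP D γ) (∏ i, mon (p i) (γ i).1) := by
  rw [basP_apply, symP_tprod]
  simp only [Dat.sym_bas]
  exact prod_monomial _ _ _

theorem symP_natDegree (p : I → Fin 3 → K) {e : ℕ} {x : P D} (hx : x ∈ Fil (basP D) (wtP D) e) :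
    (symP D p x).natDegree ≤ e := by
  refine Fil_induction (basP D) (wtP D) (p := fun x => (symP D p x).natDegree ≤ e) ?_ ?_ ?_ ?_ x hx
  · rw [map_zero, Polynomial.natDegree_zero]; exact Nat.zero_le _
  · intro x y h h'
    rw [map_add]
    exact Polynomial.natDegree_add_le_of_degree_le h h'
  · intro c x h
    rw [map_smul]
    exact (Polynomial.natDegree_smul_le _ _).trans h
  · intro γ hγ
    rw [symP_basP]
    exact (Polynomial.natDegree_monomial_le _).trans hγ

theorem symP_mul_basP (p : I → Fin 3 → K) (hp : ∀ i, aeval (p i) (D i).Ω = 0)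
    (γ γ' : ∀ i, Std (D i).Ω) : Top (symP D p (basP D γ * basP D γ')) (wtP D γ + wtP D γ')
      ((∏ i, mon (p i) (γ i).1) * ∏ i, mon (p i) (γ' i).1) := by
  rw [basP_mul, symP_tprod, ← Finset.prod_mul_distrib]
  unfold wtP
  rw [← Finset.sum_add_distrib]
  exact Top.prod _ fun i _ => (D i).sym_mul (p i) (hp i) _ _

theorem symP_mul (p : I → Fin 3 → K) (hp : ∀ i, aeval (p i) (D i).Ω = 0) {a b : ℕ} {x y : P D}
    (hx : x ∈ Fil (basP D) (wtP D) a) (hy : y ∈ Fil (basP D) (wtP D) b) :
    (symP D p (x * y)).coeff (a + b) = (symP D p x).coeff a * (symP D p y).coeff b := by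
  revert y
  refine Fil_induction (basP D) (wtP D) (p := fun x => ∀ {y : P D},
    y ∈ Fil (basP D) (wtP D) b → (symP D p (x * y)).coeff (a + b) =
      (symP D p x).coeff a * (symP D p y).coeff b) ?_ ?_ ?_ ?_ x hx
  · intro y _; rw [zero_mul, map_zero, Polynomial.coeff_zero, Polynomial.coeff_zero, zero_mul]
  · intro x x' h h' y hy
    rw [add_mul, map_add, map_add, Polynomial.coeff_add, Polynomial.coeff_add, h hy, h' hy, add_mul]
  · intro c x h y hy
    rw [smul_mul_assoc, map_smul, map_smul, Polynomial.coeff_smul, Polynomial.coeff_smul, h hy,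
      smul_mul_assoc]
  · intro γ hγ y hy
    refine Fil_induction (basP D) (wtP D) (p := fun y => (symP D p (basP D γ * y)).coeff (a + b) =
      (symP D p (basP D γ)).coeff a * (symP D p y).coeff b) ?_ ?_ ?_ ?_ y hy
    · rw [mul_zero, map_zero, Polynomial.coeff_zero, Polynomial.coeff_zero, mul_zero]
    · intro y y' h h'
      rw [mul_add, map_add, map_add, Polynomial.coeff_add, Polynomial.coeff_add, h, h', mul_add]
    · intro c y h
      rw [mul_smul_comm, map_smul, map_smul, Polynomial.coeff_smul, Polynomial.coeff_smul, h,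
        mul_smul_comm]
    · intro γ' hγ'
      have hT := symP_mul_basP D p hp γ γ'
      rw [symP_basP, symP_basP, Polynomial.coeff_monomial, Polynomial.coeff_monomial]
      by_cases h1 : wtP D γ = a
      · by_cases h2 : wtP D γ' = b
        · rw [if_pos h1, if_pos h2, ← h1, ← h2]
          exact hT.2
        · rw [if_neg h2, mul_zero]
          exact Polynomial.coeff_eq_zero_of_natDegree_lt (hT.1.trans_lt (by omega))
      · rw [if_neg h1, zero_mul]
        exact Polynomial.coeff_eq_zero_of_natDegree_lt (hT.1.trans_lt (by omega))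

theorem symP_pow (p : I → Fin 3 → K) (hp : ∀ i, aeval (p i) (D i).Ω = 0) {a : ℕ} {x : P D}
    (hx : x ∈ Fil (basP D) (wtP D) a) (r : ℕ) :
    (symP D p (x ^ (r + 1))).coeff ((r + 1) * a) = ((symP D p x).coeff a) ^ (r + 1) := by
  induction r with
  | zero => rw [Nat.zero_add, Nat.one_mul, pow_one, pow_one]
  | succ r ih =>
    rw [pow_succ x, Nat.succ_mul (r + 1), symP_mul D p hp (pow_mem_Fil D hx (r + 1)) hx, ih,
      ← pow_succ]

theorem symP_coeff (p : I → Fin 3 → K) (x : P D) (c : ℕ) :
    (symP D p x).coeff c = (Finsupp.mapRange (algebraMap k K) (map_zero _)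
      (((basP D).repr x).filter fun γ => wtP D γ = c)).sum
        fun γ a => a * ∏ i, mon (p i) (γ i).1 := by
  classical
  have h1 : symP D p x = ∑ γ ∈ ((basP D).repr x).support,
      (basP D).repr x γ • Polynomial.monomial (wtP D γ) (∏ i, mon (p i) (γ i).1) := by
    conv_lhs => rw [← (basP D).linearCombination_repr x, Finsupp.linearCombination_apply,
      Finsupp.sum, map_sum]
    refine Finset.sum_congr rfl fun γ _ => ?_
    rw [map_smul, symP_basP]
  rw [h1, Polynomial.finsetSum_coeff, Finsupp.sum_mapRange_index (fun _ => zero_mul _),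
    Finsupp.sum, Finsupp.support_filter, Finset.sum_filter]
  refine Finset.sum_congr rfl fun γ _ => ?_
  rw [Polynomial.coeff_smul, Polynomial.coeff_monomial]
  by_cases h : wtP D γ = c
  · rw [if_pos h, if_pos h, Finsupp.filter_apply_pos (fun γ => wtP D γ = c) _ h, Algebra.smul_def]
  · rw [if_neg h, if_neg h, smul_zero]

end sym

/-- an element of filtration degree `c` all of whose symbols vanish has smaller degree -/
theorem mem_Fil_pred {c : ℕ} (hc : 1 ≤ c) {x : P D} (hx : x ∈ Fil (basP D) (wtP D) c)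
    (h : ∀ p : I → Fin 3 → AlgebraicClosure k, (∀ i, aeval (p i) (D i).Ω = 0) →
      (symP D p x).coeff c = 0) : x ∈ Fil (basP D) (wtP D) (c - 1) := by
  classical
  have h1 := indep_prod (K := AlgebraicClosure k) (B := fun i => Std (D i).Ω)
    (V := fun i => {x : Fin 3 → AlgebraicClosure k // aeval x (D i).Ω = 0})
    (φ := fun i e q => mon q.1 e.1) (fun i => (D i).indep 0)
    (Finsupp.mapRange (algebraMap k (AlgebraicClosure k)) (map_zero _)
      (((basP D).repr x).filter fun γ => wtP D γ = c)) (by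
        intro p
        have h2 := h (fun i => (p i).1) (fun i => (p i).2)
        rw [symP_coeff] at h2
        exact h2)
  intro γ hγ
  have h2 := hx γ hγ
  have h3 : wtP D γ ≠ c := by
    intro h3
    apply hγ
    have h4 := DFunLike.congr_fun h1 γ
    rw [Finsupp.mapRange_apply, Finsupp.filter_apply_pos (fun γ => wtP D γ = c) _ h3, Finsupp.zero_apply] at h4
    exact (map_eq_zero _).mp h4
  omega

/-- the associated graded ring is reduced -/
theorem mem_Fil_pred_of_pow {c r : ℕ} (hc : 1 ≤ c) (hr : 1 ≤ r) {x : P D}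
    (hx : x ∈ Fil (basP D) (wtP D) c) (hxr : x ^ r ∈ Fil (basP D) (wtP D) (r * c - 1)) :
    x ∈ Fil (basP D) (wtP D) (c - 1) := by
  obtain ⟨s, rfl⟩ : ∃ s, r = s + 1 := ⟨r - 1, by omega⟩
  refine mem_Fil_pred D hc hx fun p hp => ?_
  have h1 := symP_pow D p hp hx s
  have h2 : (symP D p (x ^ (s + 1))).coeff ((s + 1) * c) = 0 := by
    apply Polynomial.coeff_eq_zero_of_natDegree_lt
    have h3 : 0 < (s + 1) * c := Nat.mul_pos (by omega) (by omega)
    exact (symP_natDegree D p hxr).trans_lt (by omega)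
  rw [h2] at h1
  exact pow_eq_zero_iff (by omega) |>.mp h1.symm

end Q20.Dix
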